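import Pool.Agent.helper24.TG.S1

set_option linter.all false
set_option autoImplicit false

/-!
# HC1 (MP_ce98d8_co): the plane over `GF(2^h)` with the coordinate permutations
-/

namespace Pool.Agent.helper24.TG

open Finset Classical
open Equiv (Perm)
open scoped LinearAlgebra.Projectivization
open Projectivization

section

variable {F : Type} [Field F]

/-- permutation of the coordinates -/
noncomputable def HC1_lin (F : Type) [Field F] (σ : Perm (Fin 3)) : (Fin 3 → F) →ₗ[F] (Fin 3 → F) :=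
  LinearMap.funLeft F F (fun i => σ⁻¹ i)

theorem HC1_lin_apply (σ : Perm (Fin 3)) (v : Fin 3 → F) (i : Fin 3) :
    HC1_lin F σ v i = v (σ⁻¹ i) := rfl

theorem HC1_inj (σ : Perm (Fin 3)) : Function.Injective (HC1_lin F σ) := by
  intro v w h
  ext i
  have := congrFun h (σ i)
  rw [HC1_lin_apply, HC1_lin_apply] at this
  simpa using this

/-- the action on the points -/
noncomputable def HC1_act (σ : Perm (Fin 3)) : ℙ F (Fin 3 → F) → ℙ F (Fin 3 → F) :=
  Projectivization.map (HC1_lin F σ) (HC1_inj σ)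

theorem HC1_ne {σ : Perm (Fin 3)} {v : Fin 3 → F} (hv : v ≠ 0) : HC1_lin F σ v ≠ 0 := by
  have := (HC1_inj (F := F) σ).ne hv
  rwa [map_zero] at this

theorem HC1_act_mk (σ : Perm (Fin 3)) (v : Fin 3 → F) (hv : v ≠ 0) :
    HC1_act σ (mk F v hv) = mk F (HC1_lin F σ v) (HC1_ne hv) := rfl

theorem HC1_act_one (x : ℙ F (Fin 3 → F)) : HC1_act 1 x = x := by
  induction x with | h v hv =>
  rw [HC1_act_mk]
  congr 1

theorem HC1_act_mul (g h : Perm (Fin 3)) (x : ℙ F (Fin 3 → F)) :
    HC1_act (g * h) x = HC1_act g (HC1_act h x) := by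
  induction x with | h v hv =>
  rw [HC1_act_mk, HC1_act_mk, HC1_act_mk]
  congr 1

theorem HC1_inc_act (g : Perm (Fin 3)) (x l : ℙ F (Fin 3 → F)) (h : orthogonal x l) :
    orthogonal (HC1_act g x) (HC1_act g l) := by
  induction x with | h v hv =>
  induction l with | h w hw =>
  rw [HC1_act_mk, HC1_act_mk, orthogonal_mk]
  rw [orthogonal_mk] at h
  rw [← h]
  unfold dotProduct
  exact Equiv.sum_comp (g⁻¹) (fun i => v i * w i)

theorem HC1_three : ∀ g : Perm (Fin 3), Perm.sign g = 1 → g ≠ 1 →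
    (∀ i, g⁻¹ (g⁻¹ (g⁻¹ i)) = i) ∧ (∀ i, i = 0 ∨ i = g⁻¹ 0 ∨ i = g⁻¹ (g⁻¹ 0)) := by decide

theorem HC1_two : ∀ g : Perm (Fin 3), Perm.sign g = -1 →
    g = Equiv.swap 0 1 ∨ g = Equiv.swap 0 2 ∨ g = Equiv.swap 1 2 := by decide

/-- eigenvalue -/
theorem HC1_eig (g : Perm (Fin 3)) (hg : Perm.sign g = 1) (h1 : g ≠ 1) (x : ℙ F (Fin 3 → F))
    (hx : HC1_act g x = x) : ∃ t : F, t ^ 3 = 1 ∧ x.rep 0 ≠ 0 ∧
      ∀ i, x.rep (g⁻¹ i) = t * x.rep i := by
  obtain ⟨h3, hi⟩ := HC1_three g hg h1
  have e : x = mk F x.rep x.rep_nonzero := (mk_rep x).symm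
  rw [e, HC1_act_mk, mk_eq_mk_iff'] at hx
  obtain ⟨t, ht⟩ := hx
  have ht' : ∀ i, x.rep (g⁻¹ i) = t * x.rep i := by
    intro i
    have := congrFun ht i
    rw [HC1_lin_apply] at this
    rw [← this]
    simp
  have h0 : x.rep 0 ≠ 0 := by
    intro h0
    apply x.rep_nonzero
    ext i
    rcases hi i with h | h | h
    · rw [h, h0]; rfl
    · rw [h, ht', h0]; simp
    · rw [h, ht', ht', h0]; simp
  refine ⟨t, ?_, h0, ht'⟩
  have := h3 0
  have h4 : x.rep (g⁻¹ (g⁻¹ (g⁻¹ 0))) = x.rep 0 := by rw [this]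
  rw [ht', ht', ht'] at h4
  have h5 : (t ^ 3 - 1) * x.rep 0 = 0 := by
    linear_combination h4
  rcases mul_eq_zero.mp h5 with h | h
  · exact sub_eq_zero.mp h
  · exact absurd h h0

theorem HC1_fix3 [Fintype (ℙ F (Fin 3 → F))] (g : Perm (Fin 3)) (hg : Perm.sign g = 1)
    (h1 : g ≠ 1) : (Finset.univ.filter (fun x : ℙ F (Fin 3 → F) => HC1_act g x = x)).card ≤ 3 := by
  obtain ⟨h3, hi⟩ := HC1_three g hg h1
  have hc : ((Polynomial.nthRoots 3 (1 : F)).toFinset).card ≤ 3 :=
    (Multiset.toFinset_card_le _).trans (Polynomial.card_nthRoots 3 (1 : F))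
  refine le_trans (Finset.card_le_card_of_injOn
    (fun x => if hx : HC1_act g x = x then (HC1_eig g hg h1 x hx).choose else 0) ?_ ?_) hc
  · intro x hx
    have hx' : HC1_act g x = x := by simpa using hx
    simp only [hx', dif_pos]
    obtain ⟨ht, _, _⟩ := (HC1_eig g hg h1 x hx').choose_spec
    simp only [Finset.coe_sort_coe, Finset.mem_coe, Multiset.mem_toFinset]
    rw [Polynomial.mem_nthRoots (by norm_num)]
    exact ht
  · intro x hx y hy hxy
    have hx' : HC1_act g x = x := by simpa using hx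
    have hy' : HC1_act g y = y := by simpa using hy
    simp only [hx', hy', dif_pos] at hxy
    obtain ⟨_, hx0, hxs⟩ := (HC1_eig g hg h1 x hx').choose_spec
    obtain ⟨_, hy0, hys⟩ := (HC1_eig g hg h1 y hy').choose_spec
    rw [hxy] at hxs
    set t := (HC1_eig g hg h1 y hy').choose with htdef
    rw [← mk_rep x, ← mk_rep y, mk_eq_mk_iff']
    refine ⟨x.rep 0 / y.rep 0, ?_⟩
    have h0 : x.rep 0 / y.rep 0 * y.rep 0 = x.rep 0 := by field_simp
    ext i
    simp only [Pi.smul_apply, smul_eq_mul]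
    rcases hi i with h | h | h
    · rw [h, h0]
    · rw [h, hxs, hys]
      linear_combination t * h0
    · rw [h, hxs, hys, hxs, hys]
      linear_combination t * t * h0

theorem HC1_e_ne (k : Fin 3) : (Pi.single k 1 : Fin 3 → F) ≠ 0 := by
  intro h
  have := congrFun h k
  simp at this

theorem HC1_abs [CharP F 2] (g : Perm (Fin 3)) (hg : Perm.sign g = -1) :
    ∃ k : Fin 3, ∀ x : ℙ F (Fin 3 → F), orthogonal x (HC1_act g x) →
      orthogonal x (mk F (Pi.single k 1) (HC1_e_ne k)) := by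
  rcases HC1_two g hg with h | h | h
  · refine ⟨2, fun x hx => ?_⟩
    induction x with | h v hv =>
    rw [HC1_act_mk, orthogonal_mk] at hx
    rw [orthogonal_mk]
    subst h
    simp only [dotProduct, HC1_lin_apply, Fin.sum_univ_three, Equiv.swap_inv] at hx ⊢
    simp [Equiv.swap_apply_def] at hx ⊢
    have h2 : v 0 * v 1 + v 1 * v 0 = 0 := by
      rw [mul_comm (v 1)]; exact CharTwo.add_self_eq_zero _
    rw [h2] at hx
    simpa using hx
  · refine ⟨1, fun x hx => ?_⟩
    induction x with | h v hv =>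
    rw [HC1_act_mk, orthogonal_mk] at hx
    rw [orthogonal_mk]
    subst h
    simp only [dotProduct, HC1_lin_apply, Fin.sum_univ_three, Equiv.swap_inv] at hx ⊢
    simp [Equiv.swap_apply_def] at hx ⊢
    have h2 : v 0 * v 2 + v 2 * v 0 = 0 := by
      rw [mul_comm (v 2)]; exact CharTwo.add_self_eq_zero _
    have h3 : v 1 * v 1 = 0 := by linear_combination hx - h2
    simpa using h3
  · refine ⟨0, fun x hx => ?_⟩
    induction x with | h v hv =>
    rw [HC1_act_mk, orthogonal_mk] at hx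
    rw [orthogonal_mk]
    subst h
    simp only [dotProduct, HC1_lin_apply, Fin.sum_univ_three, Equiv.swap_inv] at hx ⊢
    simp [Equiv.swap_apply_def] at hx ⊢
    have h2 : v 1 * v 2 + v 2 * v 1 = 0 := by
      rw [mul_comm (v 2)]; exact CharTwo.add_self_eq_zero _
    have h3 : v 0 * v 0 = 0 := by linear_combination hx - h2
    simpa using h3

end

theorem HC1 : HC1_stmt := by
  intro h hh
  haveI : Fact (Nat.Prime 2) := ⟨Nat.prime_two⟩
  set F := GaloisField 2 h with hF
  haveI : Finite F := inferInstance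
  haveI : Fintype (ℙ F (Fin 3 → F)) := Fintype.ofFinite _
  have hcF : Nat.card F = 2 ^ h := GaloisField.card 2 h (by omega)
  have hcP : Fintype.card (ℙ F (Fin 3 → F)) = (2 ^ h) ^ 2 + 2 ^ h + 1 := by
    rw [← Nat.card_eq_fintype_card, Projectivization.card_of_finrank F (Fin 3 → F) (n := 3) (by simp),
      hcF]
    simp [Finset.sum_range_succ]
    ring
  have hord : Configuration.ProjectivePlane.order (ℙ F (Fin 3 → F)) (ℙ F (Fin 3 → F)) = 2 ^ h := by
    have h1 := Configuration.ProjectivePlane.card_points (ℙ F (Fin 3 → F)) (ℙ F (Fin 3 → F))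
    rw [hcP] at h1
    generalize Configuration.ProjectivePlane.order (ℙ F (Fin 3 → F)) (ℙ F (Fin 3 → F)) = o at h1
    generalize 2 ^ h = q at h1
    rcases lt_trichotomy o q with h2 | h2 | h2
    · nlinarith
    · exact h2
    · nlinarith
  have hline : ∀ l : ℙ F (Fin 3 → F),
      (Finset.univ.filter (fun x : ℙ F (Fin 3 → F) => orthogonal x l)).card = 2 ^ h + 1 := by
    intro l
    have h1 := Configuration.ProjectivePlane.pointCount_eq (ℙ F (Fin 3 → F)) l
    rw [hord] at h1
    rw [← h1, Configuration.pointCount, Nat.card_eq_fintype_card, Fintype.card_subtype]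
    rfl
  refine ⟨ℙ F (Fin 3 → F), inferInstance, inferInstance, ⟨{
    inc := orthogonal
    act := HC1_act
    linf := mk F (Pi.single 2 1) (HC1_e_ne 2)
    card_P := hcP
    card_line := hline
    join := fun x y hxy => ⟨cross x y, orthogonal_cross_left hxy, orthogonal_cross_right hxy⟩
    uniq := ?_
    inc_symm := fun x l h => orthogonal_comm.mp h
    act_one := HC1_act_one
    act_mul := HC1_act_mul
    inc_act := HC1_inc_act
    fix3 := HC1_fix3
    abs2 := ?_
    inf1 := ?_
    inf2 := ?_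
    inf3 := ?_ }⟩⟩
  · intro x y l m hxy h1 h2 h3 h4
    exact (Configuration.ofField.eq_or_eq_of_orthogonal h1 h2 h3 h4).resolve_left hxy
  · intro g hg
    obtain ⟨k, hk⟩ := HC1_abs (F := F) g hg
    rw [← hline (mk F (Pi.single k 1) (HC1_e_ne k))]
    refine Finset.card_le_card ?_
    intro x hx
    simp only [Finset.mem_filter, Finset.mem_univ, true_and] at hx ⊢
    exact hk x hx
  · rw [HC1_act_mk, orthogonal_mk]
    simp [dotProduct, HC1_lin_apply, Fin.sum_univ_three, Equiv.swap_apply_def]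
  · rw [HC1_act_mk, orthogonal_mk]
    simp [dotProduct, HC1_lin_apply, Fin.sum_univ_three, Equiv.swap_apply_def]
  · rw [HC1_act_mk, HC1_act_mk, Ne, mk_eq_mk_iff']
    rintro ⟨a, ha⟩
    have := congrFun ha 1
    simp [HC1_lin_apply, Equiv.swap_apply_def] at this

end Pool.Agent.helper24.TG
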