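import Pool.Agent.helper24.TG.S1

set_option linter.all false
set_option autoImplicit false

/-!
# HC2 (MP_ce98d8_co): from a PreHost to a Host
-/

namespace Pool.Agent.helper24.TG

open Finset Classical
open Equiv (Perm)

section osup

variable {O : Type} [Fintype O] [DecidableEq O]

theorem HC2_osup_cases (a b c : O) :
    (a = b ∧ osup a b c = {c}) ∨ (b = c ∧ osup a b c = {a}) ∨ (a = c ∧ osup a b c = {b}) ∨
      (a ≠ b ∧ b ≠ c ∧ a ≠ c ∧ osup a b c = {a, b, c}) := by
  by_cases h1 : a = b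
  · left
    subst h1
    exact ⟨rfl, by unfold osup; exact symmDiff_symmDiff_cancel_left _ _⟩
  by_cases h2 : b = c
  · right; left
    subst h2
    exact ⟨rfl, by unfold osup; rw [symmDiff_self, symmDiff_bot]⟩
  by_cases h3 : a = c
  · right; right; left
    subst h3
    exact ⟨rfl, by unfold osup; rw [symmDiff_comm ({b} : Finset O) {a}]; exact symmDiff_symmDiff_cancel_left _ _⟩
  right; right; right
  refine ⟨h1, h2, h3, ?_⟩
  unfold osup
  ext x
  simp only [Finset.mem_symmDiff, Finset.mem_singleton, Finset.mem_insert]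
  by_cases xa : x = a
  · subst xa; simp [h1, h3]
  by_cases xb : x = b
  · subst xb; simp [xa, h2]
  simp [xa, xb]

theorem HC2_osup_card (a b c : O) : (osup a b c).card = 1 ∨ (osup a b c).card = 3 := by
  rcases HC2_osup_cases a b c with ⟨_, h⟩ | ⟨_, h⟩ | ⟨_, h⟩ | ⟨h1, h2, h3, h⟩
  · left; rw [h]; simp
  · left; rw [h]; simp
  · left; rw [h]; simp
  · right; rw [h]
    rw [Finset.card_insert_of_notMem (by simp [h1, h3]), Finset.card_insert_of_notMem (by simp [h2])]
    simp

theorem HC2_osup_single {a b c o : O} (h : osup a b c = {o}) :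
    (a = b ∧ c = o) ∨ (b = c ∧ a = o) ∨ (a = c ∧ b = o) := by
  rcases HC2_osup_cases a b c with ⟨h1, h'⟩ | ⟨h1, h'⟩ | ⟨h1, h'⟩ | ⟨h1, h2, h3, h'⟩
  · left; rw [h'] at h; exact ⟨h1, Finset.singleton_injective h⟩
  · right; left; rw [h'] at h; exact ⟨h1, Finset.singleton_injective h⟩
  · right; right; rw [h'] at h; exact ⟨h1, Finset.singleton_injective h⟩
  · exfalso
    have hc : (osup a b c).card = 3 := by
      rw [h', Finset.card_insert_of_notMem (by simp [h1, h3]),
        Finset.card_insert_of_notMem (by simp [h2])]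
      simp
    rw [h] at hc
    simp at hc

theorem HC2_osup_mem {a b c o : O} (h : o ∈ osup a b c) : o = a ∨ o = b ∨ o = c := by
  unfold osup at h
  simp only [Finset.mem_symmDiff, Finset.mem_singleton] at h
  tauto

/-- rotations of the three arguments -/
theorem HC2_osup_swap (a b c : O) : osup a b c = osup b a c := by
  unfold osup
  rw [symmDiff_left_comm]

theorem HC2_osup_swap' (a b c : O) : osup a b c = osup a c b := by
  unfold osup
  rw [symmDiff_comm ({b} : Finset O) {c}]

end osup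

section orb

variable {P : Type} [Fintype P] [DecidableEq P] {q : ℕ}

/-- action on flags -/
noncomputable def HC2_A (H : PreHost P q) (g : Perm (Fin 3)) (f : P × P) : P × P :=
  if Perm.sign g = 1 then (H.act g f.1, H.act g f.2) else (H.act g f.2, H.act g f.1)

theorem HC2_A_even (H : PreHost P q) {g : Perm (Fin 3)} (hg : Perm.sign g = 1) (f : P × P) :
    HC2_A H g f = (H.act g f.1, H.act g f.2) := by simp [HC2_A, hg]

theorem HC2_A_odd (H : PreHost P q) {g : Perm (Fin 3)} (hg : Perm.sign g = -1) (f : P × P) :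
    HC2_A H g f = (H.act g f.2, H.act g f.1) := by
  have : ¬ (Perm.sign g = 1) := by rw [hg]; decide
  simp [HC2_A, this]

theorem HC2_A_one (H : PreHost P q) (f : P × P) : HC2_A H 1 f = f := by
  rw [HC2_A_even H (by simp)]
  simp [H.act_one]

theorem HC2_A_mul (H : PreHost P q) (g h : Perm (Fin 3)) (f : P × P) :
    HC2_A H (g * h) f = HC2_A H g (HC2_A H h f) := by
  rcases Int.units_eq_one_or (Perm.sign g) with hg | hg <;>
  rcases Int.units_eq_one_or (Perm.sign h) with hh | hh
  · rw [HC2_A_even H (by simp [hg, hh]), HC2_A_even H hg, HC2_A_even H hh]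
    simp [H.act_mul]
  · rw [HC2_A_odd H (by simp [hg, hh]), HC2_A_even H hg, HC2_A_odd H hh]
    simp [H.act_mul]
  · rw [HC2_A_odd H (by simp [hg, hh]), HC2_A_odd H hg, HC2_A_even H hh]
    simp [H.act_mul]
  · rw [HC2_A_even H (by simp [hg, hh]), HC2_A_odd H hg, HC2_A_odd H hh]
    simp [H.act_mul]

/-- the orbit of a flag -/
noncomputable def HC2_orb (H : PreHost P q) (x l : P) : Finset (P × P) :=
  Finset.univ.image (fun g : Perm (Fin 3) => HC2_A H g (x, l))

theorem HC2_mem_orb (H : PreHost P q) {x l : P} {f : P × P} :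
    f ∈ HC2_orb H x l ↔ ∃ g : Perm (Fin 3), HC2_A H g (x, l) = f := by
  simp [HC2_orb]

theorem HC2_self_mem (H : PreHost P q) (x l : P) : (x, l) ∈ HC2_orb H x l :=
  (HC2_mem_orb H).mpr ⟨1, HC2_A_one H _⟩

theorem HC2_orb_card (H : PreHost P q) (x l : P) : (HC2_orb H x l).card ≤ 6 := by
  refine Finset.card_image_le.trans ?_
  rw [Finset.card_univ, Fintype.card_perm]
  simp [Nat.factorial]

theorem HC2_orb_A (H : PreHost P q) (s : Perm (Fin 3)) (f : P × P) :
    HC2_orb H (HC2_A H s f).1 (HC2_A H s f).2 = HC2_orb H f.1 f.2 := by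
  ext f'
  rw [HC2_mem_orb, HC2_mem_orb]
  constructor
  · rintro ⟨g, hg⟩
    refine ⟨g * s, ?_⟩
    rw [HC2_A_mul]
    exact hg
  · rintro ⟨g, hg⟩
    refine ⟨g * s⁻¹, ?_⟩
    have : ((HC2_A H s f).1, (HC2_A H s f).2) = HC2_A H s f := rfl
    rw [this, ← HC2_A_mul]
    simpa using hg

theorem HC2_orb_odd (H : PreHost P q) {s : Perm (Fin 3)} (hs : Perm.sign s = -1) (x l : P) :
    HC2_orb H (H.act s l) (H.act s x) = HC2_orb H x l := by
  have := HC2_orb_A H s (x, l)
  rw [HC2_A_odd H hs] at this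
  exact this

/-- the two polarities -/
noncomputable def HC2_s (i : Bool) : Perm (Fin 3) :=
  if i then Equiv.swap 0 2 else Equiv.swap 1 2

theorem HC2_s_sign (i : Bool) : Perm.sign (HC2_s i) = -1 := by
  cases i
  · simp only [HC2_s]; decide
  · simp only [HC2_s]; decide

theorem HC2_s_mul (i : Bool) : HC2_s i * HC2_s i = 1 := by
  cases i
  · simp only [HC2_s]; decide
  · simp only [HC2_s]; decide

noncomputable def HC2_pi (H : PreHost P q) (i : Bool) (x : P) : P := H.act (HC2_s i) x

theorem HC2_pi_pi (H : PreHost P q) (i : Bool) (x : P) : HC2_pi H i (HC2_pi H i x) = x := by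
  unfold HC2_pi
  rw [← H.act_mul, HC2_s_mul, H.act_one]

theorem HC2_pi_inj (H : PreHost P q) (i : Bool) {x y : P} (h : HC2_pi H i x = HC2_pi H i y) :
    x = y := by
  rw [← HC2_pi_pi H i x, h, HC2_pi_pi]

theorem HC2_pi_inc (H : PreHost P q) (i : Bool) {x y : P} (h : H.inc x (HC2_pi H i y)) :
    H.inc y (HC2_pi H i x) := by
  have h1 := H.inc_act (HC2_s i) _ _ h
  have h2 : H.act (HC2_s i) (HC2_pi H i y) = y := HC2_pi_pi H i y
  rw [h2] at h1
  exact H.inc_symm _ _ h1

theorem HC2_orb_pi (H : PreHost P q) (i : Bool) (x l : P) :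
    HC2_orb H (HC2_pi H i l) (HC2_pi H i x) = HC2_orb H x l :=
  HC2_orb_odd H (HC2_s_sign i) x l

/-- the orbit of a pair of conjugate points -/
noncomputable def HC2_o (H : PreHost P q) (x y : P) : Finset (P × P) :=
  HC2_orb H x (HC2_pi H false y)

theorem HC2_o_comm (H : PreHost P q) (x y : P) : HC2_o H x y = HC2_o H y x := by
  unfold HC2_o
  rw [← HC2_orb_pi H false, HC2_pi_pi]

theorem HC2_c_spec : ∀ g : Perm (Fin 3), Perm.sign g = 1 → g ≠ 1 →
    (finRotate 3 = g ∨ finRotate 3 = g * g) := by decide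

theorem HC2_odd_sq : ∀ g : Perm (Fin 3), Perm.sign g = -1 → g * g = 1 := by decide

/-- the fixed points of the three-cycles -/
noncomputable def HC2_F (H : PreHost P q) : Finset P :=
  Finset.univ.filter (fun x => H.act (finRotate 3) x = x)

theorem HC2_F_card (H : PreHost P q) : (HC2_F H).card ≤ 3 :=
  H.fix3 (finRotate 3) (by decide) (by decide)

theorem HC2_F_mem (H : PreHost P q) {g : Perm (Fin 3)} (hg : Perm.sign g = 1) (h1 : g ≠ 1)
    {x : P} (hx : H.act g x = x) : x ∈ HC2_F H := by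
  rw [HC2_F, Finset.mem_filter]
  refine ⟨Finset.mem_univ _, ?_⟩
  rcases HC2_c_spec g hg h1 with h | h
  · rw [h, hx]
  · rw [h, H.act_mul, hx, hx]

theorem HC2_eq_orb (H : PreHost P q) {x l x' l' : P} (h : HC2_orb H x l = HC2_orb H x' l') :
    (x = x' ∧ l = l') ∨
    (∃ g : Perm (Fin 3), Perm.sign g = 1 ∧ g ≠ 1 ∧ H.act g x = x' ∧ H.act g l = l') ∨
    (∃ g : Perm (Fin 3), Perm.sign g = -1 ∧ H.act g l = x' ∧ H.act g x = l') := by
  have h1 : (x', l') ∈ HC2_orb H x l := by rw [h]; exact HC2_self_mem H x' l'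
  obtain ⟨g, hg⟩ := (HC2_mem_orb H).mp h1
  rcases Int.units_eq_one_or (Perm.sign g) with hs | hs
  · by_cases h1 : g = 1
    · left
      subst h1
      rw [HC2_A_one] at hg
      simpa using hg
    · right; left
      rw [HC2_A_even H hs] at hg
      exact ⟨g, hs, h1, (Prod.ext_iff.mp hg).1, (Prod.ext_iff.mp hg).2⟩
  · right; right
    rw [HC2_A_odd H hs] at hg
    exact ⟨g, hs, (Prod.ext_iff.mp hg).1, (Prod.ext_iff.mp hg).2⟩

/-- coincidences -/
theorem HC2_coin (H : PreHost P q) {x y z : P} (h : HC2_o H z x = HC2_o H z y) :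
    x = y ∨ (z ∈ HC2_F H ∧ ∃ g : Perm (Fin 3),
      y = HC2_pi H false (H.act g (HC2_pi H false x))) := by
  rcases HC2_eq_orb H h with ⟨_, h2⟩ | ⟨g, hs, h1, h2, h3⟩ | ⟨g, hs, h2, h3⟩
  · left; exact HC2_pi_inj H false h2
  · right
    exact ⟨HC2_F_mem H hs h1 h2, g, by rw [h3, HC2_pi_pi]⟩
  · left
    rw [← h2, ← H.act_mul, HC2_odd_sq g hs, H.act_one] at h3
    exact HC2_pi_inj H false h3

/-- the constraints -/
noncomputable def HC2_TT (H : PreHost P q) : Finset (Finset (Finset (P × P))) :=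
  (Finset.univ.filter (fun t : P × P × P => H.inc t.1 (HC2_pi H false t.2.1) ∧
    H.inc t.2.1 (HC2_pi H false t.2.2) ∧ H.inc t.1 (HC2_pi H false t.2.2))).image
    (fun t => osup (HC2_o H t.1 t.2.1) (HC2_o H t.2.1 t.2.2) (HC2_o H t.1 t.2.2))

theorem HC2_mem_TT (H : PreHost P q) {S : Finset (Finset (P × P))} :
    S ∈ HC2_TT H ↔ ∃ x1 x2 x3, H.inc x1 (HC2_pi H false x2) ∧ H.inc x2 (HC2_pi H false x3) ∧
      H.inc x1 (HC2_pi H false x3) ∧
      S = osup (HC2_o H x1 x2) (HC2_o H x2 x3) (HC2_o H x1 x3) := by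
  unfold HC2_TT
  rw [Finset.mem_image]
  constructor
  · rintro ⟨t, ht, rfl⟩
    obtain ⟨_, h1, h2, h3⟩ := Finset.mem_filter.mp ht
    exact ⟨t.1, t.2.1, t.2.2, h1, h2, h3, rfl⟩
  · rintro ⟨x1, x2, x3, h1, h2, h3, rfl⟩
    exact ⟨(x1, x2, x3), Finset.mem_filter.mpr ⟨Finset.mem_univ _, h1, h2, h3⟩, rfl⟩

/-- a common conjugate point -/
noncomputable def HC2_M (H : PreHost P q) (x y : P) : P :=
  if h : ∃ z, H.inc z (HC2_pi H false x) ∧ H.inc z (HC2_pi H false y) then h.choose else x

theorem HC2_M_eq (H : PreHost P q) {x y z : P} (hxy : x ≠ y) (h1 : H.inc z (HC2_pi H false x))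
    (h2 : H.inc z (HC2_pi H false y)) : HC2_M H x y = z := by
  have h : ∃ z, H.inc z (HC2_pi H false x) ∧ H.inc z (HC2_pi H false y) := ⟨z, h1, h2⟩
  unfold HC2_M
  rw [dif_pos h]
  obtain ⟨h3, h4⟩ := h.choose_spec
  by_contra hne
  exact hxy (HC2_pi_inj H false (H.uniq _ _ _ _ hne h3 h1 h4 h2))

theorem HC2_deg (H : PreHost P q) (o : Finset (P × P)) :
    ((HC2_TT H).filter (fun S => o ∈ S)).card ≤ 40 := by
  set G : P × P → Finset (Finset (P × P)) := fun f =>
    osup (HC2_o H f.1 (HC2_pi H false f.2))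
      (HC2_o H (HC2_pi H false f.2) (HC2_M H f.1 (HC2_pi H false f.2)))
      (HC2_o H f.1 (HC2_M H f.1 (HC2_pi H false f.2))) with hG
  -- one triple
  have key : ∀ x y z : P, H.inc z (HC2_pi H false x) → H.inc z (HC2_pi H false y) →
      o = HC2_o H x y →
      osup (HC2_o H x y) (HC2_o H y z) (HC2_o H x z) ∈ insert {o} (o.image G) := by
    intro x y z h1 h2 ho
    by_cases hxy : x = y
    · subst hxy
      rw [Finset.mem_insert]
      left
      rw [ho]
      unfold osup
      rw [symmDiff_self, symmDiff_bot]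
    · rw [Finset.mem_insert]
      right
      rw [Finset.mem_image]
      refine ⟨(x, HC2_pi H false y), ?_, ?_⟩
      · rw [ho]; exact HC2_self_mem H _ _
      · simp only [hG, HC2_pi_pi]
        rw [HC2_M_eq H hxy h1 h2]
  have hsub : (HC2_TT H).filter (fun S => o ∈ S) ⊆ insert {o} (o.image G) := by
    intro S hS
    obtain ⟨hS, ho⟩ := Finset.mem_filter.mp hS
    obtain ⟨x1, x2, x3, h12, h23, h13, rfl⟩ := (HC2_mem_TT H).mp hS
    rcases HC2_osup_mem ho with h | h | h
    · exact key x1 x2 x3 (HC2_pi_inc H false h13) (HC2_pi_inc H false h23) h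
    · have := key x2 x3 x1 h12 h13 h
      rw [HC2_o_comm H x3 x1, HC2_o_comm H x2 x1, HC2_osup_swap', HC2_osup_swap] at this
      exact this
    · have := key x1 x3 x2 (HC2_pi_inc H false h12) h23 h
      rw [HC2_o_comm H x3 x2, HC2_osup_swap, HC2_osup_swap', HC2_osup_swap] at this
      exact this
  by_cases hne : ((HC2_TT H).filter (fun S => o ∈ S)).Nonempty
  · obtain ⟨S, hS⟩ := hne
    obtain ⟨hS, ho⟩ := Finset.mem_filter.mp hS
    obtain ⟨x1, x2, x3, h12, h23, h13, rfl⟩ := (HC2_mem_TT H).mp hS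
    have hc : o.card ≤ 6 := by
      rcases HC2_osup_mem ho with h | h | h <;> rw [h] <;> exact HC2_orb_card H _ _
    calc _ ≤ (insert {o} (o.image G)).card := Finset.card_le_card hsub
      _ ≤ (o.image G).card + 1 := Finset.card_insert_le _ _
      _ ≤ o.card + 1 := Nat.add_le_add_right Finset.card_image_le _
      _ ≤ 40 := by omega
  · rw [Finset.not_nonempty_iff_eq_empty] at hne
    rw [hne]; simp

/-- the pairs whose orbit may be a member -/
noncomputable def HC2_W (H : PreHost P q) : Finset (P × P) :=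
  (Finset.univ.filter (fun x => H.inc x (HC2_pi H false x))).image (fun x => (x, x)) ∪
  (HC2_F H ×ˢ (Finset.univ : Finset (Perm (Fin 3)))).biUnion (fun r =>
    (Finset.univ.filter (fun x => H.inc x (HC2_pi H false r.1))).image
      (fun x => (x, HC2_pi H false (H.act r.2 (HC2_pi H false x)))))

theorem HC2_W_card (H : PreHost P q) : (HC2_W H).card ≤ 19 * (q + 1) := by
  unfold HC2_W
  refine (Finset.card_union_le _ _).trans ?_
  have h1 : ((Finset.univ.filter (fun x => H.inc x (HC2_pi H false x))).image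
      (fun x => (x, x))).card ≤ q + 1 :=
    Finset.card_image_le.trans (H.abs2 (HC2_s false) (HC2_s_sign false))
  have h2 : ((HC2_F H ×ˢ (Finset.univ : Finset (Perm (Fin 3)))).biUnion (fun r =>
    (Finset.univ.filter (fun x => H.inc x (HC2_pi H false r.1))).image
      (fun x => (x, HC2_pi H false (H.act r.2 (HC2_pi H false x)))))).card ≤ 18 * (q + 1) := by
    refine Finset.card_biUnion_le.trans ?_
    refine (Finset.sum_le_card_nsmul _ _ (q + 1) ?_).trans ?_
    · intro r _
      exact Finset.card_image_le.trans (le_of_eq (H.card_line _))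
    · rw [Finset.card_product, Finset.card_univ, Fintype.card_perm, smul_eq_mul]
      have := HC2_F_card H
      simp only [Fintype.card_fin, Nat.factorial]
      nlinarith
  omega

theorem HC2_W_mem (H : PreHost P q) {x y z : P} (hxz : H.inc x (HC2_pi H false z))
    (hxy : H.inc x (HC2_pi H false y)) (h : HC2_o H z x = HC2_o H z y) : (x, y) ∈ HC2_W H := by
  unfold HC2_W
  rw [Finset.mem_union]
  rcases HC2_coin H h with h | ⟨hz, g, h⟩
  · left
    subst h
    exact Finset.mem_image.mpr ⟨x, Finset.mem_filter.mpr ⟨Finset.mem_univ _, hxy⟩, rfl⟩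
  · right
    refine Finset.mem_biUnion.mpr ⟨(z, g), Finset.mem_product.mpr ⟨hz, Finset.mem_univ _⟩, ?_⟩
    exact Finset.mem_image.mpr ⟨x, Finset.mem_filter.mpr ⟨Finset.mem_univ _, hxz⟩, by rw [h]⟩

theorem HC2_single (H : PreHost P q) {o : Finset (P × P)} (h : {o} ∈ HC2_TT H) :
    ∃ w ∈ HC2_W H, o = HC2_o H w.1 w.2 := by
  obtain ⟨x1, x2, x3, h12, h23, h13, hS⟩ := (HC2_mem_TT H).mp h
  rcases HC2_osup_single hS.symm with ⟨h1, h2⟩ | ⟨h1, h2⟩ | ⟨h1, h2⟩
  · -- o x1 x2 = o x2 x3
    refine ⟨(x1, x3), HC2_W_mem H h12 h13 ?_, h2.symm⟩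
    rw [HC2_o_comm H x2 x1]; exact h1
  · refine ⟨(x1, x2), HC2_W_mem H (z := x3) h13 h12 ?_, h2.symm⟩
    rw [HC2_o_comm H x3 x1, HC2_o_comm H x3 x2]; exact h1.symm
  · exact ⟨(x2, x3), HC2_W_mem H (z := x1) (HC2_pi_inc H false h12) h23 h1, h2.symm⟩

theorem HC2 : HC2_stmt := by
  intro P _ _ q hq H
  refine ⟨{ inc := H.inc
            linf := H.linf
            pi := HC2_pi H
            orb := HC2_orb H
            TT := HC2_TT H
            fixL := HC2_F H
            card_P := H.card_P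
            card_line := H.card_line
            card_pt := ?_
            join := H.join
            meet := ?_
            uniq := H.uniq
            pi_pi := HC2_pi_pi H
            pi_inc := fun i x y h => HC2_pi_inc H i h
            pi_ne := H.inf3
            pi_linf := ?_
            orb_pi := fun i x l _ => HC2_orb_pi H i x l
            orb_le := ?_
            card_fixL := HC2_F_card H
            fixL_spec := ?_
            fixF := ?_
            cs := ?_
            tt1 := ?_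
            tt2 := ?_
            tt_deg := ?_ }⟩
  · intro x
    rw [← H.card_line x]
    congr 1
    ext l
    simp only [Finset.mem_filter, Finset.mem_univ, true_and]
    exact ⟨H.inc_symm _ _, H.inc_symm _ _⟩
  · intro l m hlm
    obtain ⟨x, h1, h2⟩ := H.join l m hlm
    exact ⟨x, H.inc_symm _ _ h1, H.inc_symm _ _ h2⟩
  · intro i
    cases i
    · exact H.inf1
    · exact H.inf2
  · intro o
    by_cases hne : (Finset.univ.filter (fun f : P × P => H.inc f.1 f.2 ∧
        HC2_orb H f.1 f.2 = o)).Nonempty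
    · obtain ⟨f, hf⟩ := hne
      obtain ⟨_, _, hf⟩ := Finset.mem_filter.mp hf
      have hc : o.card ≤ 6 := by rw [← hf]; exact HC2_orb_card H _ _
      refine le_trans (Finset.card_le_card ?_) hc
      intro f' hf'
      obtain ⟨_, _, hf'⟩ := Finset.mem_filter.mp hf'
      rw [← hf']
      exact HC2_self_mem H f'.1 f'.2
    · rw [Finset.not_nonempty_iff_eq_empty] at hne
      rw [hne]; simp
  · intro l hl x y hx hy h
    rcases HC2_eq_orb H h with ⟨h1, _⟩ | ⟨g, hs, h1, h2, h3⟩ | ⟨g, hs, h2, h3⟩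
    · exact h1
    · exact absurd (HC2_F_mem H hs h1 h3) hl
    · rw [← h2, ← h3, ← H.act_mul, HC2_odd_sq g hs, H.act_one]
  · intro l
    have hsub : (Finset.univ.filter (fun x => H.inc x l ∧ ∃ m, m ≠ l ∧ H.inc x m ∧
        HC2_orb H x m = HC2_orb H x l)) ⊆ HC2_F H ∪
        ((Finset.univ : Finset (Perm (Fin 3))).filter (fun g => Perm.sign g = -1)).image
          (fun g => H.act g l) := by
      intro x hx
      obtain ⟨_, _, m, hm, _, h⟩ := Finset.mem_filter.mp hx
      rw [Finset.mem_union]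
      rcases HC2_eq_orb H h.symm with ⟨_, h1⟩ | ⟨g, hs, h1, h2, h3⟩ | ⟨g, hs, h2, h3⟩
      · exact absurd h1.symm hm
      · left; exact HC2_F_mem H hs h1 h2
      · right
        exact Finset.mem_image.mpr ⟨g, Finset.mem_filter.mpr ⟨Finset.mem_univ _, hs⟩, h2⟩
    refine (Finset.card_le_card hsub).trans ((Finset.card_union_le _ _).trans ?_)
    have h1 := HC2_F_card H
    have h2 : (((Finset.univ : Finset (Perm (Fin 3))).filter (fun g => Perm.sign g = -1)).image
          (fun g => H.act g l)).card ≤ 3 := by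
      refine Finset.card_image_le.trans (le_of_eq ?_)
      decide
    omega
  · refine ⟨?_, HC2_deg H⟩
    intro S hS
    obtain ⟨x1, x2, x3, _, _, _, rfl⟩ := (HC2_mem_TT H).mp hS
    exact HC2_osup_card _ _ _
  · intro x1 x2 x3 h12 h23 h13
    exact (HC2_mem_TT H).mpr ⟨x1, x2, x3, h12, h23, h13, rfl⟩
  · intro x1 x2 x3 h12 h23 h13
    have e : ∀ y, HC2_o H (HC2_pi H false (HC2_pi H true x1)) y =
        HC2_orb H x1 (HC2_pi H true y) := by
      intro y
      unfold HC2_o
      rw [HC2_orb_pi, ← HC2_orb_pi H true, HC2_pi_pi]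
    have e2 : ∀ y, H.inc x1 (HC2_pi H true y) →
        H.inc (HC2_pi H false (HC2_pi H true x1)) (HC2_pi H false y) := by
      intro y hy
      exact H.inc_act _ _ _ (H.inc_symm _ _ (HC2_pi_inc H true hy))
    refine (HC2_mem_TT H).mpr ⟨HC2_pi H false (HC2_pi H true x1), x2, x3, e2 _ h12, h23,
      e2 _ h13, ?_⟩
    rw [e, e]
    rfl
  · have hsub : (Finset.univ.filter (fun f : P × P => H.inc f.1 f.2 ∧
        {HC2_orb H f.1 f.2} ∈ HC2_TT H)) ⊆
        (HC2_W H).biUnion (fun w => HC2_o H w.1 w.2) := by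
      intro f hf
      obtain ⟨_, _, hf⟩ := Finset.mem_filter.mp hf
      obtain ⟨w, hw, h⟩ := HC2_single H hf
      refine Finset.mem_biUnion.mpr ⟨w, hw, ?_⟩
      rw [← h]
      exact HC2_self_mem H f.1 f.2
    refine (Finset.card_le_card hsub).trans (Finset.card_biUnion_le.trans ?_)
    refine (Finset.sum_le_card_nsmul _ _ 6 (fun w _ => HC2_orb_card H _ _)).trans ?_
    have := HC2_W_card H
    rw [smul_eq_mul]
    omega

end orb

end Pool.Agent.helper24.TG
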