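import Pool.Agent.helper24.TG.S2

set_option linter.all false
set_option autoImplicit false

/-!
# H3c (MP_ce98d8_co)
-/

namespace Pool.Agent.helper24.TG

open Finset Classical

theorem H3c : H3c_stmt := by
  intro p P O A _ _ _ _ _ _ _ H v h3 z z' hne
  set TL := Finset.univ.filter (fun L : P × A => onL H v L z) with hTL
  have hsub : Gam H v z ∩ Gam H v z' ⊆
      TL.biUnion (fun L => lin H v L ∩ (Gam H v z ∩ Gam H v z')) := by
    intro x hx
    have hx' := hx
    rw [Finset.mem_inter, mem_Gam, mem_Gam] at hx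
    obtain ⟨⟨n, L, h1, h2⟩, _⟩ := hx
    refine Finset.mem_biUnion.mpr ⟨L, by simp [hTL, h1], ?_⟩
    rw [Finset.mem_inter]
    exact ⟨by simpa using h2, hx'⟩
  have hone : (TL.filter (fun L => onL H v L z')).card ≤ 1 := by
    rw [Finset.card_le_one]
    intro L hL M hM
    simp only [hTL, Finset.mem_filter, Finset.mem_univ, true_and] at hL hM
    by_cases h : z.1 = z'.1
    · exact absurd (onL_inj hL.1 hL.2 h) hne
    · exact line_unique h hL.1 hL.2 hM.1 hM.2
  have hb : ∀ L ∈ TL, p.c ^ 6 * (lin H v L ∩ (Gam H v z ∩ Gam H v z')).card ≤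
      p.q + (if onL H v L z' then p.c ^ 6 * p.q else 0) := by
    intro L hL
    have hLz : onL H v L z := by simpa [hTL] using hL
    by_cases h : onL H v L z'
    · rw [if_pos h]
      have h1 : (lin H v L ∩ (Gam H v z ∩ Gam H v z')).card ≤ p.q := by
        have h2 : lin H v L ∩ (Gam H v z ∩ Gam H v z') ⊆ (lin H v L).erase z := by
          intro x hx
          rw [Finset.mem_inter, Finset.mem_inter] at hx
          refine Finset.mem_erase.mpr ⟨?_, hx.1⟩
          rintro rfl
          exact not_col_self H v x (by simpa using hx.2.1)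
        have h3 : ((lin H v L).erase z).card = p.q := by
          rw [Finset.card_erase_of_mem (by simpa using hLz), card_lin]
          rfl
        exact (Finset.card_le_card h2).trans (le_of_eq h3)
      have := Nat.mul_le_mul_left (p.c ^ 6) h1
      omega
    · rw [if_neg h]
      have h1 := h3 L z' h
      have h2 : (lin H v L ∩ (Gam H v z ∩ Gam H v z')).card ≤ (lin H v L ∩ Gam H v z').card := by
        refine Finset.card_le_card ?_
        intro x hx
        rw [Finset.mem_inter, Finset.mem_inter] at hx
        exact Finset.mem_inter.mpr ⟨hx.1, hx.2.2⟩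
      have := Nat.mul_le_mul_left (p.c ^ 6) h2
      omega
  calc p.c ^ 6 * (Gam H v z ∩ Gam H v z').card
      ≤ p.c ^ 6 * ∑ L ∈ TL, (lin H v L ∩ (Gam H v z ∩ Gam H v z')).card :=
        Nat.mul_le_mul_left _ ((Finset.card_le_card hsub).trans Finset.card_biUnion_le)
    _ = ∑ L ∈ TL, p.c ^ 6 * (lin H v L ∩ (Gam H v z ∩ Gam H v z')).card := by
        rw [Finset.mul_sum]
    _ ≤ ∑ L ∈ TL, (p.q + (if onL H v L z' then p.c ^ 6 * p.q else 0)) := Finset.sum_le_sum hb
    _ = (p.q + 1) * p.q + (TL.filter (fun L => onL H v L z')).card * (p.c ^ 6 * p.q) := by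
        rw [Finset.sum_add_distrib, Finset.sum_const, hTL, card_through, smul_eq_mul,
          ← Finset.sum_filter, Finset.sum_const, smul_eq_mul]
    _ ≤ _ := by
        have := Nat.mul_le_mul_right (p.c ^ 6 * p.q) hone
        omega

end Pool.Agent.helper24.TG
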