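import Pool.Agent.helper24.TG.S2
import Pool.Agent.helper41.TGE.Num

set_option linter.all false
set_option autoImplicit false

/-!
# HP6 (MP_ce98d8_co): mixing of the lifted neighbourhoods
-/

namespace Pool.Agent.helper24.TG

open Finset Classical
open Pool.Agent.helper41.TGE

section num

variable (p : Par)

theorem HP6_cB_q : (p.c * p.B) ^ 200 ≤ p.q := by
  have h1 := p.N2
  have h2 := p.N3'
  have hd : 0 < p.d := d_pos p
  have h3 : (p.c * p.B) ^ 200 * p.d ≤ p.q * p.d := by
    calc (p.c * p.B) ^ 200 * p.d = (p.c * p.B) ^ 100 * ((p.c * p.B) ^ 100 * p.d) := by ring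
      _ ≤ (p.c * p.B) ^ 100 * p.N := Nat.mul_le_mul_left _ h2
      _ = (p.c * p.B) ^ 100 * 1 * (0 + 1) * p.N := by ring
      _ ≤ (p.c * p.B) ^ 100 * p.L * (p.K + 1) * p.N := by
          have := p.hL
          gcongr
          omega
      _ ≤ _ := h1
  exact Nat.le_of_mul_le_mul_right h3 hd

theorem HP6_cB_sq : (p.c * p.B) ^ 100 ≤ p.sq := by
  have h1 := HP6_cB_q p
  rw [p.hq] at h1
  have h2 : ((p.c * p.B) ^ 100) ^ 2 ≤ p.sq ^ 2 := by
    rw [← pow_mul]; exact h1
  exact (Nat.pow_le_pow_iff_left (by norm_num)).mp h2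

theorem HP6_sq_ge : 31104 * p.B ≤ p.sq := by
  refine le_trans ?_ (HP6_cB_sq p)
  have hc := c_ge p
  have hB := B_pos p
  have h1 : 1 ≤ p.c * p.B := Nat.mul_pos (c_pos p) hB
  calc 31104 * p.B ≤ p.c * p.B := by gcongr; omega
    _ = (p.c * p.B) ^ 1 := (pow_one _).symm
    _ ≤ (p.c * p.B) ^ 100 := Nat.pow_le_pow_right h1 (by norm_num)

end num

section

variable {p : Par} {P O A : Type} [Fintype P] [DecidableEq P] [Fintype O]
  [DecidableEq O] [Fintype A] [DecidableEq A] [AddCommGroup A]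

/-- the pairs over flags -/
noncomputable def HP6_E (H : Host P O p.q) (i : Bool) (S W : Finset (P × A)) :
    Finset ((P × A) × (P × A)) :=
  (S ×ˢ W).filter (fun e => H.inc e.2.1 (H.pi i e.1.1))

/-- the orbit of a pair -/
def HP6_o (H : Host P O p.q) (i : Bool) (e : (P × A) × (P × A)) : O :=
  H.orb e.2.1 (H.pi i e.1.1)

/-- the weights -/
noncomputable def HP6_mu (H : Host P O p.q) (i : Bool) (S W : Finset (P × A)) (o : O) (a : A) : ℝ :=
  (((HP6_E H i S W).filter (fun e => HP6_o H i e = o ∧ e.1.2 + e.2.2 = a)).card : ℝ)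

theorem HP6_mu_nonneg (H : Host P O p.q) (i : Bool) (S W : Finset (P × A)) (o : O) (a : A) :
    0 ≤ HP6_mu H i S W o a := by unfold HP6_mu; positivity

theorem HP6_mu_le (H : Host P O p.q) (hA : Fintype.card A = p.B) (i : Bool)
    (S W : Finset (P × A)) (o : O) (a : A) : HP6_mu H i S W o a ≤ 6 * p.B := by
  unfold HP6_mu
  have h : ((HP6_E H i S W).filter (fun e => HP6_o H i e = o ∧ e.1.2 + e.2.2 = a)).card ≤
      ((Finset.univ.filter (fun f : P × P => H.inc f.1 f.2 ∧ H.orb f.1 f.2 = o)) ×ˢ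
        (Finset.univ : Finset A)).card := by
    refine Finset.card_le_card_of_injOn (fun e => ((e.2.1, H.pi i e.1.1), e.1.2)) ?_ ?_
    · intro e he
      have he' := Finset.mem_filter.mp (Finset.mem_coe.mp he)
      have h1 := (Finset.mem_filter.mp he'.1).2
      rw [Finset.mem_coe, Finset.mem_product, Finset.mem_filter]
      exact ⟨⟨Finset.mem_univ _, h1, he'.2.1⟩, Finset.mem_univ _⟩
    · intro e he f hf h
      have he' := (Finset.mem_filter.mp (Finset.mem_coe.mp he)).2.2
      have hf' := (Finset.mem_filter.mp (Finset.mem_coe.mp hf)).2.2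
      simp only [Prod.mk.injEq] at h
      obtain ⟨⟨h1, h2⟩, h3⟩ := h
      have h4 : e.1.1 = f.1.1 := pi_inj H i h2
      have h5 : e.2.2 = f.2.2 := by
        rw [← hf', h3] at he'
        exact add_left_cancel he'
      exact Prod.ext (Prod.ext h4 h3) (Prod.ext h1 h5)
  rw [Finset.card_product, Finset.card_univ, hA] at h
  have h2 := h.trans (Nat.mul_le_mul_right _ (H.orb_le o))
  exact_mod_cast h2

theorem HP6_sum_a (H : Host P O p.q) (i : Bool) (S W : Finset (P × A)) (o : O) :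
    ∑ a, HP6_mu H i S W o a =
      (((HP6_E H i S W).filter (fun e => HP6_o H i e = o)).card : ℝ) := by
  unfold HP6_mu
  rw [← Nat.cast_sum]
  congr 1
  rw [Finset.card_eq_sum_card_fiberwise (f := fun e => e.1.2 + e.2.2)
    (t := (Finset.univ : Finset A)) (fun _ _ => Finset.mem_coe.mpr (Finset.mem_univ _))]
  refine Finset.sum_congr rfl ?_
  intro a _
  rw [Finset.filter_filter]

theorem HP6_sum_F (H : Host P O p.q) (i : Bool) (S W : Finset (P × A)) (F : Finset O) :
    ∑ o ∈ F, ∑ a, HP6_mu H i S W o a =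
      (((HP6_E H i S W).filter (fun e => HP6_o H i e ∈ F)).card : ℝ) := by
  rw [Finset.sum_congr rfl (fun o _ => HP6_sum_a H i S W o), ← Nat.cast_sum]
  congr 1
  rw [Finset.card_eq_sum_card_fiberwise (f := HP6_o H i) (s := (HP6_E H i S W).filter
    (fun e => HP6_o H i e ∈ F)) (t := F)
    (fun e he => (Finset.mem_filter.mp (Finset.mem_coe.mp he)).2)]
  refine Finset.sum_congr rfl ?_
  intro o ho
  rw [Finset.filter_filter]
  congr 1
  ext e
  simp only [Finset.mem_filter]
  constructor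
  · rintro ⟨h1, h2⟩; exact ⟨h1, by rw [h2]; exact ho, h2⟩
  · rintro ⟨h1, _, h2⟩; exact ⟨h1, h2⟩

theorem HP6_eH (H : Host P O p.q) (v : O → A) (i : Bool) (S W : Finset (P × A)) (F : Finset O) :
    ∑ o ∈ F, HP6_mu H i S W o (v o) ≤ (eH H v i S W : ℝ) := by
  have h1 : ∑ o ∈ F, HP6_mu H i S W o (v o) ≤ ∑ o, HP6_mu H i S W o (v o) :=
    Finset.sum_le_sum_of_subset_of_nonneg (Finset.subset_univ _)
      (fun o _ _ => HP6_mu_nonneg H i S W o (v o))
  refine h1.trans ?_
  unfold HP6_mu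
  rw [← Nat.cast_sum]
  have h2 : ∑ o, ((HP6_E H i S W).filter (fun e => HP6_o H i e = o ∧ e.1.2 + e.2.2 = v o)).card =
      ((HP6_E H i S W).filter (fun e => e.1.2 + e.2.2 = v (HP6_o H i e))).card := by
    rw [Finset.card_eq_sum_card_fiberwise (f := HP6_o H i) (s := (HP6_E H i S W).filter
      (fun e => e.1.2 + e.2.2 = v (HP6_o H i e))) (t := (Finset.univ : Finset O))
      (fun _ _ => Finset.mem_coe.mpr (Finset.mem_univ _))]
    refine Finset.sum_congr rfl ?_
    intro o _
    rw [Finset.filter_filter]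
    congr 1
    ext e
    simp only [Finset.mem_filter]
    constructor
    · rintro ⟨h1, h2, h3⟩; exact ⟨h1, by rw [h2]; exact h3, h2⟩
    · rintro ⟨h1, h2, h3⟩; exact ⟨h1, h3, by rw [← h3]; exact h2⟩
  rw [h2]
  have h3 : ((HP6_E H i S W).filter (fun e => e.1.2 + e.2.2 = v (HP6_o H i e))).card ≤
      eH H v i S W := by
    unfold eH
    refine Finset.card_le_card ?_
    intro e he
    obtain ⟨he1, he2⟩ := Finset.mem_filter.mp he
    obtain ⟨he3, he4⟩ := Finset.mem_filter.mp he1
    refine Finset.mem_filter.mpr ⟨he3, ?_⟩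
    rw [mem_Nb]
    refine ⟨he4, ?_⟩
    simp only [NL]
    rw [add_comm]
    exact he2
  exact_mod_cast h3

/-- the orbits that are members themselves carry little -/
theorem HP6_small (H : Host P O p.q) (hA : Fintype.card A = p.B) (i : Bool)
    (S W : Finset (P × A)) :
    ((HP6_E H i S W).filter (fun e => {HP6_o H i e} ∈ H.TT)).card ≤
      1000 * (p.q + 1) * (p.B * p.B) := by
  have h : ((HP6_E H i S W).filter (fun e => {HP6_o H i e} ∈ H.TT)).card ≤
      ((Finset.univ.filter (fun f : P × P => H.inc f.1 f.2 ∧ {H.orb f.1 f.2} ∈ H.TT)) ×ˢ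
        (Finset.univ : Finset (A × A))).card := by
    refine Finset.card_le_card_of_injOn (fun e => ((e.2.1, H.pi i e.1.1), (e.1.2, e.2.2))) ?_ ?_
    · intro e he
      have he' := Finset.mem_filter.mp (Finset.mem_coe.mp he)
      have h1 := (Finset.mem_filter.mp he'.1).2
      rw [Finset.mem_coe, Finset.mem_product, Finset.mem_filter]
      exact ⟨⟨Finset.mem_univ _, h1, he'.2⟩, Finset.mem_univ _⟩
    · intro e he f hf h
      simp only [Prod.mk.injEq] at h
      obtain ⟨⟨h1, h2⟩, h3, h5⟩ := h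
      have h4 : e.1.1 = f.1.1 := pi_inj H i h2
      exact Prod.ext (Prod.ext h4 h3) (Prod.ext h1 h5)
  rw [Finset.card_product, Finset.card_univ, Fintype.card_prod, hA] at h
  exact h.trans (Nat.mul_le_mul_right _ H.tt_deg)

theorem HP6_W0 (S W : Finset (P × A)) (hS : p.W0 ≤ S.card) (hW : p.W0 ≤ W.card) :
    4 * p.q * (1000 * (p.q + 1) * (p.B * p.B)) ≤ S.card * W.card := by
  have h1 : p.W0 * p.W0 ≤ S.card * W.card := Nat.mul_le_mul hS hW
  refine le_trans ?_ h1
  unfold Par.W0
  have hc := c_ge p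
  have hq := q_pos p
  have e : p.c ^ 2 * p.B * p.q * p.sq * (p.c ^ 2 * p.B * p.q * p.sq) =
      p.c ^ 4 * (p.B * p.B) * p.q * (p.q * p.sq ^ 2) := by ring
  rw [e, ← p.hq]
  have h2 : 4 * 1000 * (p.q + 1) ≤ p.c ^ 4 * p.q := by
    have h3 : 8000 ≤ p.c ^ 4 := by
      calc 8000 ≤ p.c := by omega
        _ = p.c ^ 1 := (pow_one _).symm
        _ ≤ p.c ^ 4 := Nat.pow_le_pow_right (c_pos p) (by norm_num)
    nlinarith
  calc 4 * p.q * (1000 * (p.q + 1) * (p.B * p.B)) =
        (4 * 1000 * (p.q + 1)) * (p.q * (p.B * p.B)) := by ring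
    _ ≤ (p.c ^ 4 * p.q) * (p.q * (p.B * p.B)) := Nat.mul_le_mul_right _ h2
    _ = p.c ^ 4 * (p.B * p.B) * p.q * p.q * 1 := by ring
    _ ≤ p.c ^ 4 * (p.B * p.B) * p.q * p.q * p.q := Nat.mul_le_mul_left _ hq
    _ = _ := by ring

/-- one pair of sets -/
theorem HP6_one (hMX : MX_stmt) (hVS5 : VS5_stmt) (hVS6 : VS6_stmt) (H : Host P O p.q)
    (hA : Fintype.card A = p.B) (i : Bool) (S W : Finset (P × A)) (hS : p.W0 ≤ S.card)
    (hW : p.W0 ≤ W.card) :
    (((Om A H.TT).filter (fun v => ¬ (S.card * W.card ≤ 10 ^ 5 * p.B * p.q * eH H v i S W))).card : ℝ) *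
      Real.exp ((S.card : ℝ) * W.card / (15552 * p.q * p.B ^ 2)) ≤ (Om A H.TT).card := by
  have hqr := rq p
  have hBr := rB p
  set F0 : Finset O := Finset.univ.filter (fun o => {o} ∉ H.TT) with hF0
  obtain ⟨F', hF'sub, hF'1, hF'2⟩ := hVS6 O H.TT 40 H.cs F0
    (fun o => ∑ a, HP6_mu H i S W o a)
    (fun o => Finset.sum_nonneg (fun a _ => HP6_mu_nonneg H i S W o a))
  set M : ℝ := ∑ o ∈ F', ∑ a, HP6_mu H i S W o a with hM
  -- the total mass
  have hmass : (S.card : ℝ) * W.card ≤ 324 * p.q * M := by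
    have h1 : ((S.card * W.card : ℕ) : ℝ) ≤ ((2 * p.q * (HP6_E H i S W).card : ℕ) : ℝ) := by
      exact_mod_cast hMX p P O A H hA i S W hS hW
    have h2 : (HP6_E H i S W).card = ((HP6_E H i S W).filter (fun e => HP6_o H i e ∈ F0)).card +
        ((HP6_E H i S W).filter (fun e => {HP6_o H i e} ∈ H.TT)).card := by
      rw [add_comm, ← Finset.card_filter_add_card_filter_not
        (s := HP6_E H i S W) (fun e => {HP6_o H i e} ∈ H.TT)]
      congr 2
      ext e
      simp [hF0]
    have h3 : 4 * p.q * ((HP6_E H i S W).filter (fun e => {HP6_o H i e} ∈ H.TT)).card ≤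
        S.card * W.card :=
      (Nat.mul_le_mul_left _ (HP6_small H hA i S W)).trans (HP6_W0 S W hS hW)
    have h4 : ((4 * p.q * ((HP6_E H i S W).filter (fun e => {HP6_o H i e} ∈ H.TT)).card : ℕ) : ℝ) ≤
        ((S.card * W.card : ℕ) : ℝ) := by exact_mod_cast h3
    have h5 : (((HP6_E H i S W).filter (fun e => HP6_o H i e ∈ F0)).card : ℝ) ≤ 81 * M := by
      rw [← HP6_sum_F]
      refine hF'2.trans (le_of_eq ?_)
      norm_num
    rw [h2] at h1
    push_cast at h1 h4
    nlinarith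
  have hBB : 3 * 40 + 1 ≤ Fintype.card A := by
    rw [hA]
    have h1 := p.N7
    have h2 := c_ge p
    have h3 : p.c ^ 1 ≤ p.c ^ 200 := Nat.pow_le_pow_right (c_pos p) (by norm_num)
    rw [pow_one] at h3
    omega
  have h5 := hVS5 O A H.TT 40 H.cs hBB F' (HP6_mu H i S W) (6 * p.B) (by positivity) hF'1
    (fun o ho => by
      have := hF'sub ho
      simpa [hF0] using this)
    (fun o a => ⟨HP6_mu_nonneg H i S W o a, HP6_mu_le H hA i S W o a⟩)
  rw [← hM] at h5
  refine le_trans (mul_le_mul ?_ ?_ (Real.exp_pos _).le (by positivity)) h5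
  · have : ((Om A H.TT).filter (fun v => ¬ (S.card * W.card ≤ 10 ^ 5 * p.B * p.q *
        eH H v i S W))) ⊆ ((Om A H.TT).filter (fun v => 8 * (Fintype.card A : ℝ) *
        ∑ o ∈ F', HP6_mu H i S W o (v o) ≤ M)) := by
      intro v hv
      obtain ⟨hv1, hv2⟩ := Finset.mem_filter.mp hv
      refine Finset.mem_filter.mpr ⟨hv1, ?_⟩
      rw [hA]
      have h6 := HP6_eH H v i S W F'
      push Not at hv2
      have h7 : ((10 ^ 5 * p.B * p.q * eH H v i S W : ℕ) : ℝ) < ((S.card * W.card : ℕ) : ℝ) := by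
        exact_mod_cast hv2
      push_cast at h7
      have h8 : 10 ^ 5 * (p.B : ℝ) * p.q * eH H v i S W ≤ 324 * p.q * M := by linarith
      have h9 : 10 ^ 5 * (p.B : ℝ) * eH H v i S W ≤ 324 * M := by
        have : p.q * (10 ^ 5 * (p.B : ℝ) * eH H v i S W) ≤ p.q * (324 * M) := by linarith
        exact le_of_mul_le_mul_left this hqr
      have h10 : 8 * (p.B : ℝ) * ∑ o ∈ F', HP6_mu H i S W o (v o) ≤
          8 * (p.B : ℝ) * eH H v i S W := mul_le_mul_of_nonneg_left h6 (by positivity)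
      have h11 : (0 : ℝ) ≤ (p.B : ℝ) * eH H v i S W := by positivity
      nlinarith
    exact_mod_cast Finset.card_le_card this
  · apply Real.exp_le_exp.mpr
    rw [hA, div_le_div_iff₀ (by positivity) (by positivity)]
    have h6 : (S.card : ℝ) * W.card * (8 * p.B * (6 * p.B)) ≤
        324 * p.q * M * (8 * p.B * (6 * p.B)) := mul_le_mul_of_nonneg_right hmass (by positivity)
    nlinarith

end

/-- the exponent -/
theorem HP6_exp (p : Par) (n s w : ℕ) (hn : n = s + w) (hn1 : 1 ≤ n) (hs : p.W0 ≤ s)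
    (hw : p.W0 ≤ w) :
    (2 : ℝ) * 2 ^ ((p.Lam + 1) * n + 10 * p.Lam) ≤
      Real.exp ((s : ℝ) * w / (15552 * p.q * p.B ^ 2)) := by
  have hqr := rq p
  have hBr := rB p
  have hcr := rc p
  have hL := rLam p
  have hL1 : (1 : ℝ) ≤ p.Lam := by exact_mod_cast p.hLam
  have h1 : ((p.Lam + 1) * n + 10 * p.Lam + 1 : ℕ) ≤ p.c * n := by
    have := p.hLog
    have := p.hLam
    nlinarith
  have hsr : (p.W0 : ℝ) ≤ s := by exact_mod_cast hs
  have hwr : (p.W0 : ℝ) ≤ w := by exact_mod_cast hw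
  have hW0 : (p.W0 : ℝ) = p.c ^ 2 * p.B * p.q * p.sq := by unfold Par.W0; push_cast; ring
  have hsq : (31104 : ℝ) * p.B ≤ p.sq := by exact_mod_cast HP6_sq_ge p
  have hnr : (n : ℝ) = s + w := by rw [hn]; push_cast; ring
  have h2 : (p.W0 : ℝ) * n ≤ 2 * ((s : ℝ) * w) := by
    have h0 : (0 : ℝ) ≤ p.W0 := by positivity
    rw [hnr]
    nlinarith
  have h3 : (p.c : ℝ) * n ≤ (s : ℝ) * w / (15552 * p.q * p.B ^ 2) := by
    rw [le_div_iff₀ (by positivity)]
    have h4 : (p.c : ℝ) * n * (31104 * p.q * p.B ^ 2) ≤ (p.W0 : ℝ) * n := by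
      rw [hW0]
      have h5 : (31104 : ℝ) * p.B * (p.c * p.q * p.B * n) ≤ p.sq * (p.c * p.q * p.B * n) :=
        mul_le_mul_of_nonneg_right hsq (by positivity)
      have h6 : (p.sq : ℝ) * (p.c * p.q * p.B * n) * 1 ≤ p.sq * (p.c * p.q * p.B * n) * p.c :=
        mul_le_mul_of_nonneg_left (by linarith) (by positivity)
      nlinarith
    nlinarith
  calc (2 : ℝ) * 2 ^ ((p.Lam + 1) * n + 10 * p.Lam) = 2 ^ ((p.Lam + 1) * n + 10 * p.Lam + 1) := by
        rw [pow_succ]; ring
    _ ≤ 2 ^ (p.c * n) := pow_le_pow_right₀ (by norm_num) h1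
    _ ≤ (Real.exp 1) ^ (p.c * n) := by
        refine pow_le_pow_left₀ (by norm_num) ?_ _
        have := Real.add_one_le_exp (1 : ℝ)
        linarith
    _ = Real.exp ((p.c * n : ℕ) : ℝ) := by rw [← Real.exp_nat_mul]; simp
    _ ≤ _ := by
        apply Real.exp_le_exp.mpr
        push_cast
        exact h3

theorem HP6_card (p : Par) : 2 * ((p.q ^ 2 + p.q + 1) * p.B) ≤ 2 ^ p.Lam := by
  refine le_trans ?_ p.s1
  have h1 := C_two p
  have h2 := q_pos p
  have h3 : p.q ^ 2 + p.q + 1 ≤ 3 * p.q ^ 2 := by nlinarith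
  calc 2 * ((p.q ^ 2 + p.q + 1) * p.B) ≤ 2 * (3 * p.q ^ 2 * p.B) := by gcongr
    _ ≤ 4 * p.B * p.q ^ 2 * 2 := by nlinarith [Nat.zero_le (p.q ^ 2 * p.B)]
    _ ≤ 4 * p.B * p.q ^ 2 * p.C := Nat.mul_le_mul_left _ h1

theorem HP6 (hMX : MX_stmt) (hVS5 : VS5_stmt) (hVS6 : VS6_stmt) : HP6_stmt := by
  intro p P O A _ _ _ _ _ _ _ H hA h2
  set bad : Finset (Bool × (P × A)) → (O → A) → Prop := fun Z v => ∃ i : Bool,
    p.W0 ≤ (Finset.univ.filter (fun x => (true, x) ∈ Z)).card ∧
    p.W0 ≤ (Finset.univ.filter (fun x => (false, x) ∈ Z)).card ∧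
    ¬ ((Finset.univ.filter (fun x => (true, x) ∈ Z)).card *
      (Finset.univ.filter (fun x => (false, x) ∈ Z)).card ≤ 10 ^ 5 * p.B * p.q *
      eH H v i (Finset.univ.filter (fun x => (true, x) ∈ Z))
        (Finset.univ.filter (fun x => (false, x) ∈ Z))) with hbad
  have hX : Fintype.card (Bool × (P × A)) ≤ 2 ^ p.Lam := by
    rw [Fintype.card_prod, Fintype.card_prod, Fintype.card_bool, hA, H.card_P]
    exact HP6_card p
  have hW0pos : 0 < p.W0 := by
    unfold Par.W0
    have h1 := c_pos p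
    have h3 := B_pos p
    have h4 := q_pos p
    have h5 : 0 < p.sq := by
      have := HP6_sq_ge p
      omega
    positivity
  have key := ub_sets (Om A H.TT) p.Lam (10 * p.Lam) hX bad (by
    intro Z hZ
    set S := Finset.univ.filter (fun x : P × A => (true, x) ∈ Z) with hS
    set W := Finset.univ.filter (fun x : P × A => (false, x) ∈ Z) with hW
    have hcard : Z.card = S.card + W.card := by
      have h1 : Z.card = (Z.filter (fun y => y.1 = true)).card +
          (Z.filter (fun y => ¬ y.1 = true)).card := by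
        rw [Finset.card_filter_add_card_filter_not]
      rw [h1]
      congr 1
      · refine (Finset.card_bij (fun x _ => (true, x)) ?_ ?_ ?_).symm
        · intro x hx
          rw [hS, Finset.mem_filter] at hx
          exact Finset.mem_filter.mpr ⟨hx.2, rfl⟩
        · intro x _ y _ h
          exact (Prod.mk.inj h).2
        · intro y hy
          obtain ⟨hy1, hy2⟩ := Finset.mem_filter.mp hy
          refine ⟨y.2, ?_, ?_⟩
          · rw [hS, Finset.mem_filter]
            refine ⟨Finset.mem_univ _, ?_⟩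
            rw [← hy2]; exact hy1
          · rw [← hy2]
      · refine (Finset.card_bij (fun x _ => (false, x)) ?_ ?_ ?_).symm
        · intro x hx
          rw [hW, Finset.mem_filter] at hx
          exact Finset.mem_filter.mpr ⟨hx.2, by simp⟩
        · intro x _ y _ h
          exact (Prod.mk.inj h).2
        · intro y hy
          obtain ⟨hy1, hy2⟩ := Finset.mem_filter.mp hy
          have hy3 : y.1 = false := by simpa using hy2
          refine ⟨y.2, ?_, ?_⟩
          · rw [hW, Finset.mem_filter]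
            refine ⟨Finset.mem_univ _, ?_⟩
            rw [← hy3]; exact hy1
          · rw [← hy3]
    by_cases hsz : p.W0 ≤ S.card ∧ p.W0 ≤ W.card
    · have hn1 : 1 ≤ Z.card := Finset.card_pos.mpr hZ
      have h1 := HP6_one hMX hVS5 hVS6 H hA true S W hsz.1 hsz.2
      have h2' := HP6_one hMX hVS5 hVS6 H hA false S W hsz.1 hsz.2
      have hex := HP6_exp p Z.card S.card W.card hcard hn1 hsz.1 hsz.2
      set ex := Real.exp ((S.card : ℝ) * W.card / (15552 * p.q * p.B ^ 2)) with hexd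
      have hsub : (Om A H.TT).filter (bad Z) ⊆
          ((Om A H.TT).filter (fun v => ¬ (S.card * W.card ≤ 10 ^ 5 * p.B * p.q *
            eH H v true S W))) ∪
          ((Om A H.TT).filter (fun v => ¬ (S.card * W.card ≤ 10 ^ 5 * p.B * p.q *
            eH H v false S W))) := by
        intro v hv
        obtain ⟨hv1, i, _, _, hv2⟩ := Finset.mem_filter.mp hv
        cases i
        · exact Finset.mem_union_right _ (Finset.mem_filter.mpr ⟨hv1, hv2⟩)
        · exact Finset.mem_union_left _ (Finset.mem_filter.mpr ⟨hv1, hv2⟩)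
      have h3 : (((Om A H.TT).filter (bad Z)).card : ℝ) ≤
          (((Om A H.TT).filter (fun v => ¬ (S.card * W.card ≤ 10 ^ 5 * p.B * p.q *
            eH H v true S W))).card : ℝ) +
          (((Om A H.TT).filter (fun v => ¬ (S.card * W.card ≤ 10 ^ 5 * p.B * p.q *
            eH H v false S W))).card : ℝ) := by
        exact_mod_cast (Finset.card_le_card hsub).trans (Finset.card_union_le _ _)
      have h4 : (((Om A H.TT).filter (bad Z)).card : ℝ) * ex ≤ 2 * (Om A H.TT).card := by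
        calc (((Om A H.TT).filter (bad Z)).card : ℝ) * ex ≤ _ :=
              mul_le_mul_of_nonneg_right h3 (Real.exp_pos _).le
          _ ≤ 2 * (Om A H.TT).card := by
              rw [add_mul]
              linarith
      have h5 : (((Om A H.TT).filter (bad Z)).card : ℝ) *
          (2 * 2 ^ ((p.Lam + 1) * Z.card + 10 * p.Lam)) ≤ 2 * (Om A H.TT).card :=
        (mul_le_mul_of_nonneg_left hex (by positivity)).trans h4
      have h6 : (((Om A H.TT).filter (bad Z)).card : ℝ) *
          2 ^ ((p.Lam + 1) * Z.card + 10 * p.Lam) ≤ (Om A H.TT).card := by linarith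
      exact_mod_cast h6
    · have : (Om A H.TT).filter (bad Z) = ∅ := by
        rw [Finset.filter_eq_empty_iff]
        rintro v _ ⟨i, h1, h3, _⟩
        exact hsz ⟨h1, h3⟩
      rw [this]
      simp)
  refine le_trans (Nat.mul_le_mul_right _ (Finset.card_le_card ?_)) key
  intro v hv
  obtain ⟨hv1, hv2⟩ := Finset.mem_filter.mp hv
  refine Finset.mem_filter.mpr ⟨hv1, ?_⟩
  unfold H6 at hv2
  push Not at hv2
  obtain ⟨i, S, W, hS, hW, hlt⟩ := hv2
  set Z : Finset (Bool × (P × A)) := Finset.univ.filter (fun y => if y.1 then y.2 ∈ S else y.2 ∈ W)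
    with hZ
  have e1 : Finset.univ.filter (fun x : P × A => (true, x) ∈ Z) = S := by
    ext x; simp [hZ]
  have e2 : Finset.univ.filter (fun x : P × A => (false, x) ∈ Z) = W := by
    ext x; simp [hZ]
  refine ⟨Z, ?_, i, ?_, ?_, ?_⟩
  · obtain ⟨x, hx⟩ := Finset.card_pos.mp (lt_of_lt_of_le hW0pos hS)
    exact ⟨(true, x), by simp [hZ, hx]⟩
  · rw [e1]; exact hS
  · rw [e2]; exact hW
  · rw [e1, e2]; exact not_le.mpr hlt

end Pool.Agent.helper24.TG
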