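import Pool.Agent.helper24.TG.S1

set_option linter.all false
set_option autoImplicit false

/-!
# LB1 (MP_ce98d8_co): balanced labellings with prescribed values
-/

namespace Pool.Agent.helper24.TG

open Finset Classical

section

variable {p : Par} {P O V : Type} [Fintype P] [DecidableEq P] [Fintype O]
  [DecidableEq O] [Fintype V] [DecidableEq V]

theorem LB1_PA_card (H : Host P O p.q) : (PA H).card = p.q ^ 2 := by
  have h1 : (Finset.univ.filter (fun x => H.inc x H.linf)).card + (PA H).card =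
      Fintype.card P := by
    unfold PA
    rw [Finset.card_filter_add_card_filter_not, Finset.card_univ]
  rw [H.card_line, H.card_P] at h1
  omega

theorem LB1_swap (H : Host P O p.q) (v0 : V) {φ : P → V} (hφ : φ ∈ Psi p H v0) {x y : P}
    (hx : x ∈ PA H) (hy : y ∈ PA H) : φ ∘ Equiv.swap x y ∈ Psi p H v0 := by
  unfold Psi at hφ ⊢
  rw [Finset.mem_filter] at hφ ⊢
  obtain ⟨_, hb, hv⟩ := hφ
  have hs : ∀ t, t ∈ PA H ↔ Equiv.swap x y t ∈ PA H := by
    intro t
    by_cases h1 : t = x
    · subst h1; simp only [Equiv.swap_apply_left]; exact ⟨fun _ => hy, fun _ => hx⟩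
    by_cases h2 : t = y
    · subst h2; simp only [Equiv.swap_apply_right]; exact ⟨fun _ => hx, fun _ => hy⟩
    rw [Equiv.swap_apply_of_ne_of_ne h1 h2]
  refine ⟨Finset.mem_univ _, ?_, ?_⟩
  · intro u
    rw [← hb u]
    refine Finset.card_bij (fun t _ => Equiv.swap x y t) ?_ ?_ ?_
    · intro t ht
      rw [Finset.mem_filter] at ht ⊢
      exact ⟨(hs t).mp ht.1, ht.2⟩
    · intro a _ b _ h
      exact (Equiv.swap x y).injective h
    · intro t ht
      rw [Finset.mem_filter] at ht
      refine ⟨Equiv.swap x y t, ?_, Equiv.swap_apply_self x y t⟩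
      rw [Finset.mem_filter]
      refine ⟨(hs t).mp ht.1, ?_⟩
      simp only [Function.comp, Equiv.swap_apply_self]
      exact ht.2
  · intro t ht
    have h1 : t ≠ x := fun h => ht (h ▸ hx)
    have h2 : t ≠ y := fun h => ht (h ▸ hy)
    simp only [Function.comp, Equiv.swap_apply_of_ne_of_ne h1 h2]
    exact hv t ht

theorem LB1_step (H : Host P O p.q) (v0 : V) (g : P → V) (J : Finset P) (hJ : J ⊆ PA H) (x : P)
    (hx : x ∈ PA H) (hxJ : x ∉ J) :
    ((Psi p H v0).filter (fun φ => ∀ t ∈ insert x J, φ t = g t)).card * (p.q ^ 2 - J.card) ≤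
      p.w * ((Psi p H v0).filter (fun φ => ∀ t ∈ J, φ t = g t)).card := by
  set A := (Psi p H v0).filter (fun φ => ∀ t ∈ J, φ t = g t) with hA
  have h1 : ∀ y ∈ PA H \ J, ((Psi p H v0).filter (fun φ => ∀ t ∈ insert x J, φ t = g t)).card ≤
      (A.filter (fun φ => φ y = g x)).card := by
    intro y hy
    obtain ⟨hy1, hy2⟩ := Finset.mem_sdiff.mp hy
    refine Finset.card_le_card_of_injOn (fun φ => φ ∘ Equiv.swap x y) ?_ ?_
    · intro φ hφ
      have hφ' := Finset.mem_filter.mp (Finset.mem_coe.mp hφ)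
      rw [Finset.mem_coe, Finset.mem_filter, hA, Finset.mem_filter]
      refine ⟨⟨LB1_swap H v0 hφ'.1 hx hy1, ?_⟩, ?_⟩
      · intro t ht
        have e1 : t ≠ x := fun h => hxJ (h ▸ ht)
        have e2 : t ≠ y := fun h => hy2 (h ▸ ht)
        simp only [Function.comp, Equiv.swap_apply_of_ne_of_ne e1 e2]
        exact hφ'.2 t (Finset.mem_insert_of_mem ht)
      · simp only [Function.comp, Equiv.swap_apply_right]
        exact hφ'.2 x (Finset.mem_insert_self _ _)
    · intro φ _ ψ _ h
      have := congrArg (fun f => f ∘ Equiv.swap x y) h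
      simp only [Function.comp_assoc] at this
      have e : (⇑(Equiv.swap x y) ∘ ⇑(Equiv.swap x y)) = id := by
        ext t; simp
      rw [e] at this
      simpa using this
  have h2 : (PA H \ J).card = p.q ^ 2 - J.card := by
    rw [Finset.card_sdiff_of_subset hJ, LB1_PA_card]
  calc _ = ∑ y ∈ PA H \ J,
        ((Psi p H v0).filter (fun φ => ∀ t ∈ insert x J, φ t = g t)).card := by
        rw [Finset.sum_const, h2, smul_eq_mul, mul_comm]
    _ ≤ ∑ y ∈ PA H \ J, (A.filter (fun φ => φ y = g x)).card := Finset.sum_le_sum h1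
    _ = ∑ φ ∈ A, ((PA H \ J).filter (fun y => φ y = g x)).card := by
        simp only [Finset.card_filter]
        rw [Finset.sum_comm]
    _ ≤ ∑ φ ∈ A, p.w := by
        refine Finset.sum_le_sum ?_
        intro φ hφ
        have hb : Bald p H φ := by
          have := (Finset.mem_filter.mp hφ).1
          unfold Psi at this
          exact (Finset.mem_filter.mp this).2.1
        rw [← hb (g x)]
        refine Finset.card_le_card ?_
        intro t ht
        rw [Finset.mem_filter] at ht ⊢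
        exact ⟨(Finset.mem_sdiff.mp ht.1).1, ht.2⟩
    _ = _ := by rw [Finset.sum_const, smul_eq_mul, mul_comm]

theorem LB1_prod (H : Host P O p.q) (v0 : V) (g : P → V) (J : Finset P) (hJ : J ⊆ PA H) :
    ((Psi p H v0).filter (fun φ => ∀ t ∈ J, φ t = g t)).card *
      ∏ i ∈ Finset.range J.card, (p.q ^ 2 - i) ≤ p.w ^ J.card * (Psi p H v0).card := by
  induction J using Finset.induction_on with
  | empty => simp
  | insert x J hxJ ih =>
    have hJ' : J ⊆ PA H := (Finset.subset_insert _ _).trans hJ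
    have hx : x ∈ PA H := hJ (Finset.mem_insert_self _ _)
    have h1 := LB1_step H v0 g J hJ' x hx hxJ
    have h2 := ih hJ'
    rw [Finset.card_insert_of_notMem hxJ, Finset.prod_range_succ]
    calc _ = (((Psi p H v0).filter (fun φ => ∀ t ∈ insert x J, φ t = g t)).card *
          (p.q ^ 2 - J.card)) * ∏ i ∈ Finset.range J.card, (p.q ^ 2 - i) := by ring
      _ ≤ (p.w * ((Psi p H v0).filter (fun φ => ∀ t ∈ J, φ t = g t)).card) *
          ∏ i ∈ Finset.range J.card, (p.q ^ 2 - i) := Nat.mul_le_mul_right _ h1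
      _ = p.w * (((Psi p H v0).filter (fun φ => ∀ t ∈ J, φ t = g t)).card *
          ∏ i ∈ Finset.range J.card, (p.q ^ 2 - i)) := by ring
      _ ≤ p.w * (p.w ^ J.card * (Psi p H v0).card) := Nat.mul_le_mul_left _ h2
      _ = _ := by ring

end

theorem LB1_num (Q k : ℕ) (hk : 2 * k ≤ Q) :
    (Q : ℝ) ^ k ≤ ((∏ i ∈ Finset.range k, (Q - i) : ℕ) : ℝ) * Real.exp (2 * (k : ℝ) ^ 2 / Q) := by
  induction k with
  | zero => simp
  | succ k ih =>
    have h1 := ih (by omega)
    have hQ : (0 : ℝ) < Q := by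
      have : 0 < Q := by omega
      exact_mod_cast this
    have hk2 : 2 * (k : ℝ) + 2 ≤ Q := by exact_mod_cast hk
    have hc : ((Q - k : ℕ) : ℝ) = Q - k := by
      rw [Nat.cast_sub (by omega)]
    have h2 : (Q : ℝ) ≤ (Q - k) * Real.exp (2 * k / Q) := by
      have h3 : 1 + 2 * (k : ℝ) / Q ≤ Real.exp (2 * k / Q) := by
        have := Real.add_one_le_exp (2 * (k : ℝ) / Q)
        linarith
      have hpos : (0 : ℝ) ≤ Q - k := by
        have : (0 : ℝ) ≤ k := by positivity
        linarith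
      calc (Q : ℝ) ≤ (Q - k) * (1 + 2 * k / Q) := by
            have e : (Q - k) * (1 + 2 * (k : ℝ) / Q) - Q = k * (Q - 2 * k) / Q := by
              field_simp; ring
            have : 0 ≤ k * (Q - 2 * (k : ℝ)) / Q := by
              apply div_nonneg _ hQ.le
              apply mul_nonneg (by positivity)
              linarith
            linarith
        _ ≤ _ := mul_le_mul_of_nonneg_left h3 hpos
    rw [Finset.prod_range_succ, pow_succ, Nat.cast_mul, hc]
    have h4 : Real.exp (2 * k / Q) * Real.exp (2 * (k : ℝ) ^ 2 / Q) ≤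
        Real.exp (2 * ((k + 1 : ℕ) : ℝ) ^ 2 / Q) := by
      rw [← Real.exp_add]
      apply Real.exp_le_exp.mpr
      rw [← add_div]
      apply div_le_div_of_nonneg_right _ hQ.le
      push_cast
      have : (0 : ℝ) ≤ k := by positivity
      nlinarith
    have hp : (0 : ℝ) ≤ ((∏ i ∈ Finset.range k, (Q - i) : ℕ) : ℝ) := by positivity
    have hpos : (0 : ℝ) ≤ Q - k := by
      have : (0 : ℝ) ≤ k := by positivity
      linarith
    calc (Q : ℝ) ^ k * Q ≤ (((∏ i ∈ Finset.range k, (Q - i) : ℕ) : ℝ) *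
          Real.exp (2 * (k : ℝ) ^ 2 / Q)) * ((Q - k) * Real.exp (2 * k / Q)) :=
          mul_le_mul h1 h2 hQ.le (by positivity)
      _ = ((∏ i ∈ Finset.range k, (Q - i) : ℕ) : ℝ) * (Q - k) *
          (Real.exp (2 * k / Q) * Real.exp (2 * (k : ℝ) ^ 2 / Q)) := by ring
      _ ≤ _ := mul_le_mul_of_nonneg_left h4 (mul_nonneg hp hpos)

theorem LB1 : LB1_stmt := by
  intro p P O V _ _ _ _ _ _ H v0 hV g J hJ h2
  have h1 := LB1_prod H v0 g J hJ
  have h3 := LB1_num (p.q ^ 2) J.card h2
  set RR := ∏ i ∈ Finset.range J.card, (p.q ^ 2 - i) with hR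
  set X := ((Psi p H v0).filter (fun φ => ∀ t ∈ J, φ t = g t)).card with hX
  have hR0 : (0 : ℝ) < (RR : ℝ) := by
    have : 0 < RR := by
      refine Finset.prod_pos ?_
      intro i hi
      have := Finset.mem_range.mp hi
      omega
    exact_mod_cast this
  have h4 : (X : ℝ) * RR ≤ (p.w : ℝ) ^ J.card * (Psi p H v0).card := by exact_mod_cast h1
  have hw : ((p.q ^ 2 : ℕ) : ℝ) = p.w * p.N := by rw [p.hw]; push_cast; ring
  refine le_of_mul_le_mul_right ?_ hR0
  calc (X : ℝ) * (p.N : ℝ) ^ J.card * RR = (X * RR) * (p.N : ℝ) ^ J.card := by ring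
    _ ≤ ((p.w : ℝ) ^ J.card * (Psi p H v0).card) * (p.N : ℝ) ^ J.card :=
        mul_le_mul_of_nonneg_right h4 (by positivity)
    _ = (Psi p H v0).card * ((p.q ^ 2 : ℕ) : ℝ) ^ J.card := by rw [hw, mul_pow]; ring
    _ ≤ (Psi p H v0).card * (RR * Real.exp (2 * (J.card : ℝ) ^ 2 / ((p.q ^ 2 : ℕ) : ℝ))) :=
        mul_le_mul_of_nonneg_left h3 (by positivity)
    _ = _ := by push_cast; ring

end Pool.Agent.helper24.TG
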