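import Pool.Agent.helper24.TG.S2
import Pool.Agent.helper41.TGE.Num
import Pool.Agent.helper8.TG.HP6

set_option linter.all false
set_option autoImplicit false

/-!
# PP5 (MP_ce98d8_co): few adjacent pairs in independent sets of one copy
-/

namespace Pool.Agent.helper24.TG

open Finset Classical
open Pool.Agent.helper11.Tight (nb eo mem_nb)
open Pool.Agent.helper41.TGE

section

variable {p : Par} {P O A V : Type} [Fintype P] [DecidableEq P] [Fintype O]
  [DecidableEq O] [Fintype A] [DecidableEq A] [AddCommGroup A] [Fintype V] [DecidableEq V]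

theorem PP5_one (hVS3 : VS3_stmt) (H : Host P O p.q) (T : SimpleGraph V) (MM : Finset (Finset V))
    (φ : P → V) (hA : Fintype.card A = p.B) (h2 : ∀ a : A, a + a = 0) (hP1 : P1 p H T MM φ)
    (S : Finset (P × A)) (hS : S.Nonempty) (hXA : S ⊆ XA A H)
    (hN : 2 * p.c * p.rho * S.card <
      (((S ×ˢ S).filter (fun r => T.Adj (φ r.1.1) (φ r.2.1))).card : ℝ)) :
    ((Om A H.TT).filter (fun v => FInd H v T φ S)).card *
      2 ^ ((p.Lam + 1) * S.card + 8 * p.Lam) ≤ (Om A H.TT).card := by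
  -- uniqueness
  by_cases hD : ∀ x ∈ S, ∀ x' ∈ S, ∀ y ∈ S, x.1 = x'.1 → T.Adj (φ x.1) (φ y.1) → x = x'
  swap
  · have : (Om A H.TT).filter (fun v => FInd H v T φ S) = ∅ := by
      rw [Finset.filter_eq_empty_iff]
      intro v _ hF
      apply hD
      intro x hx x' hx' y hy h1 hadj
      have c1 := hF x hx y hy hadj
      have c2 := hF x' hx' y hy (by rw [← h1]; exact hadj)
      exact col_unique (col_symm c1) (col_symm c2) h1
    rw [this]; simp
  have hcr := rc p
  have hrho := rho_pos p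
  set I : Finset (P × P) := Finset.univ.filter (fun f => H.inc f.1 f.2 ∧ ∃ x ∈ S, ∃ y ∈ S,
    x.1 = f.1 ∧ y.1 ≠ f.1 ∧ H.inc y.1 f.2 ∧ T.Adj (φ x.1) (φ y.1)) with hI
  set PR := (S ×ˢ S).filter (fun r : (P × A) × (P × A) => T.Adj (φ r.1.1) (φ r.2.1)) with hPR
  -- the line of two types
  have hln : ∀ s t : P, ∃ l, s ≠ t → H.inc s l ∧ H.inc t l := by
    intro s t
    by_cases h : s = t
    · exact ⟨s, fun h' => absurd h h'⟩
    · obtain ⟨l, hl⟩ := H.join s t h
      exact ⟨l, fun _ => hl⟩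
  choose ln hln using hln
  have hne : ∀ r ∈ PR, r.1.1 ≠ r.2.1 := by
    intro r hr h
    have := (Finset.mem_filter.mp hr).2
    rw [h] at this
    exact T.loopless.irrefl _ this
  have hmaps : ∀ r ∈ PR, (r.1.1, ln r.1.1 r.2.1) ∈ I := by
    intro r hr
    have hr2 := (Finset.mem_filter.mp hr)
    have hr3 := Finset.mem_product.mp hr2.1
    obtain ⟨h3, h4⟩ := hln r.1.1 r.2.1 (hne r hr)
    rw [hI, Finset.mem_filter]
    exact ⟨Finset.mem_univ _, h3, r.1, hr3.1, r.2, hr3.2, rfl, (hne r hr).symm, h4, hr2.2⟩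
  have hcount : (PR.card : ℝ) ≤ I.card * (3 * p.rho) := by
    rw [Finset.card_eq_sum_card_fiberwise (f := fun r : (P × A) × (P × A) =>
      (r.1.1, ln r.1.1 r.2.1)) (t := I) (fun r hr => hmaps r hr), Nat.cast_sum]
    rw [← nsmul_eq_mul]
    refine Finset.sum_le_card_nsmul _ _ _ ?_
    intro f hf
    refine le_trans ?_ (hP1 f.2 (nb T (φ f.1)) (Or.inr ⟨_, rfl⟩))
    have : (PR.filter (fun r => (r.1.1, ln r.1.1 r.2.1) = f)).card ≤
        ((PA H).filter (fun t => H.inc t f.2 ∧ φ t ∈ nb T (φ f.1))).card := by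
      refine Finset.card_le_card_of_injOn (fun r => r.2.1) ?_ ?_
      · intro r hr
        obtain ⟨hr1, hr2⟩ := Finset.mem_filter.mp (Finset.mem_coe.mp hr)
        have hr3 := Finset.mem_filter.mp hr1
        have hr4 := Finset.mem_product.mp hr3.1
        obtain ⟨h3, h4⟩ := hln r.1.1 r.2.1 (hne r hr1)
        rw [Finset.mem_coe, Finset.mem_filter]
        refine ⟨?_, ?_, ?_⟩
        · have := hXA hr4.2
          rw [mem_XA] at this
          rw [mem_PA]; exact this
        · rw [← hr2]; exact h4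
        · rw [mem_nb, ← hr2]; exact hr3.2
      · intro r hr s hs h
        obtain ⟨hr1, hr2⟩ := Finset.mem_filter.mp (Finset.mem_coe.mp hr)
        have hr3 := Finset.mem_filter.mp hr1
        have hr4 := Finset.mem_product.mp hr3.1
        obtain ⟨hs1, hs2⟩ := Finset.mem_filter.mp (Finset.mem_coe.mp hs)
        have hs3 := Finset.mem_filter.mp hs1
        have hs4 := Finset.mem_product.mp hs3.1
        have e1 : r.1.1 = s.1.1 := by
          have := hr2.trans hs2.symm
          exact (Prod.mk.inj this).1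
        have e2 : r.1 = s.1 := hD r.1 hr4.1 s.1 hs4.1 r.2 hr4.2 e1 hr3.2
        have e3 : r.2 = s.2 := hD r.2 hr4.2 s.2 hs4.2 r.1 hr4.1 h hr3.2.symm
        exact Prod.ext e2 e3
    exact_mod_cast this
  have hIcard : (p.c : ℝ) * S.card < 2 * I.card := by
    have h3 : 2 * p.c * p.rho * S.card < I.card * (3 * p.rho) := lt_of_lt_of_le hN hcount
    have h4 : p.rho * (2 * p.c * S.card) < p.rho * (3 * I.card) := by linarith
    have h5 := lt_of_mul_lt_mul_left h4 hrho.le
    have h6 : (0 : ℝ) ≤ p.c * S.card := by positivity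
    linarith
  have hIcard' : p.c * S.card < 2 * I.card := by exact_mod_cast hIcard
  set F := I.filter (fun f => f.2 ∉ H.fixL) with hF
  have hFcard : I.card ≤ F.card + 3 * S.card := by
    have h3 : (I.filter (fun f => f.2 ∈ H.fixL)).card + F.card = I.card := by
      rw [hF, Finset.card_filter_add_card_filter_not]
    have h4 : I.filter (fun f => f.2 ∈ H.fixL) ⊆ (S.image (fun x => x.1)) ×ˢ H.fixL := by
      intro f hf
      obtain ⟨hf1, hf2⟩ := Finset.mem_filter.mp hf
      obtain ⟨_, _, x, hx, _, _, hxf, _⟩ := Finset.mem_filter.mp hf1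
      exact Finset.mem_product.mpr ⟨Finset.mem_image.mpr ⟨x, hx, hxf⟩, hf2⟩
    have h5 := Finset.card_le_card h4
    rw [Finset.card_product] at h5
    have h6 : (S.image (fun x => x.1)).card * H.fixL.card ≤ S.card * 3 :=
      Nat.mul_le_mul Finset.card_image_le H.card_fixL
    omega
  -- the partners
  obtain ⟨x0, hx0⟩ := hS
  have hpar : ∀ f : P × P, ∃ r : (P × A) × (P × A), f ∈ I → (r.1 ∈ S ∧ r.2 ∈ S ∧ r.1.1 = f.1 ∧
      r.2.1 ≠ f.1 ∧ H.inc r.2.1 f.2 ∧ T.Adj (φ r.1.1) (φ r.2.1)) := by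
    intro f
    by_cases h : f ∈ I
    · obtain ⟨_, _, x, hx, y, hy, h3⟩ := Finset.mem_filter.mp h
      exact ⟨(x, y), fun _ => ⟨hx, hy, h3⟩⟩
    · exact ⟨(x0, x0), fun h' => absurd h' h⟩
  choose par hpar using hpar
  have hB40 : 40 < Fintype.card A := by
    rw [hA]
    have h1 := p.N7
    have h2 := c_ge p
    have h3 : p.c ^ 1 ≤ p.c ^ 200 := Nat.pow_le_pow_right (c_pos p) (by norm_num)
    rw [pow_one] at h3
    omega
  set m := F.card / 18 with hm
  have hVS := hVS3 O A H.TT 40 H.cs hB40 (P × P) F (fun f => H.orb f.1 f.2)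
    (fun f => {H.orb f.1 f.2, H.orb (par f).2.1 f.2})
    (fun f => (par f).1.2 + (par f).2.2) m
    (fun f _ => Finset.mem_insert_self _ _)
    (fun f _ => (Finset.card_le_two).trans (by norm_num))
    (fun o => by
      refine le_trans (Finset.card_le_card ?_) (H.orb_le o)
      intro f hf
      obtain ⟨hf1, hf2⟩ := Finset.mem_filter.mp hf
      have hf3 := (Finset.mem_filter.mp (Finset.mem_filter.mp hf1).1).2.1
      exact Finset.mem_filter.mpr ⟨Finset.mem_univ _, hf3, hf2⟩)
    (by rw [hm]; exact Nat.mul_div_le _ _)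
  have hLam := p.hLam
  have hLog := p.hLog
  have hScard : 1 ≤ S.card := Finset.card_pos.mpr ⟨x0, hx0⟩
  have hcc := c_ge p
  have hm2 : (p.Lam + 1) * S.card + 8 * p.Lam ≤ m := by
    have h3 : p.c * S.card ≤ 4 * F.card := by
      have : 12 * S.card ≤ p.c * S.card := Nat.mul_le_mul_right _ (by omega)
      omega
    have h4 : (10 ^ 6 * p.Lam) * S.card ≤ p.c * S.card := Nat.mul_le_mul_right _ hLog
    have h5 : (p.Lam + 1) * S.card + 8 * p.Lam ≤ 10 * (p.Lam * S.card) := by nlinarith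
    have h6 : 180 * (p.Lam * S.card) ≤ F.card := by nlinarith
    rw [hm]
    rw [Nat.le_div_iff_mul_le (by norm_num)]
    omega
  have hVS' : ((Om A H.TT).filter (fun v =>
      ∀ f ∈ F, ∑ o ∈ ({H.orb f.1 f.2, H.orb (par f).2.1 f.2} : Finset O), v o =
        (par f).1.2 + (par f).2.2)).card * (Fintype.card A - 40) ^ m ≤ (Om A H.TT).card := by
    convert hVS
  refine le_trans (Nat.mul_le_mul ?_ ?_) hVS'
  · apply Finset.card_le_card
    intro v hv
    obtain ⟨hv1, hv2⟩ := Finset.mem_filter.mp hv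
    refine Finset.mem_filter.mpr ⟨hv1, ?_⟩
    intro f hf
    obtain ⟨hf1, hf2⟩ := Finset.mem_filter.mp hf
    obtain ⟨h3, h4, h5, h6, h7, h8⟩ := hpar f hf1
    have hinc := (Finset.mem_filter.mp hf1).2.1
    have hcol := hv2 _ h3 _ h4 h8
    have hne' : (par f).1.1 ≠ (par f).2.1 := by rw [h5]; exact fun h => h6 h.symm
    rw [col_iff_eq_two h2 (l := f.2) hne' (by rw [h5]; exact hinc) h7] at hcol
    rw [Finset.sum_pair, ← hcol, h5]
    intro horb
    have := H.fixL_spec f.2 hf2 f.1 (par f).2.1 hinc h7 horb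
    exact h6 this.symm
  · have h3 : 2 ≤ Fintype.card A - 40 := by
      rw [hA]
      have h1 := p.N7
      have h3 : p.c ^ 1 ≤ p.c ^ 200 := Nat.pow_le_pow_right (c_pos p) (by norm_num)
      rw [pow_one] at h3
      omega
    calc 2 ^ ((p.Lam + 1) * S.card + 8 * p.Lam) ≤ 2 ^ m :=
          Nat.pow_le_pow_right (by norm_num) hm2
      _ ≤ _ := Nat.pow_le_pow_left h3 _

end

theorem PP5 (hVS3 : VS3_stmt) : PP5_stmt := by
  intro p P O A V _ _ _ _ _ _ _ _ _ H T MM φ hA h2 hT hP1
  set bad : Finset (P × A) → (O → A) → Prop := fun S v => (S ⊆ XA A H ∧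
    2 * p.c * p.rho * S.card <
      (((S ×ˢ S).filter (fun r => T.Adj (φ r.1.1) (φ r.2.1))).card : ℝ)) ∧ FInd H v T φ S
    with hbad
  have hX : Fintype.card (P × A) ≤ 2 ^ p.Lam := by
    rw [Fintype.card_prod, hA, H.card_P]
    have := HP6_card p
    omega
  have key := ub_sets (Om A H.TT) p.Lam (8 * p.Lam) hX bad (by
    intro S hS
    by_cases h : S ⊆ XA A H ∧ 2 * p.c * p.rho * S.card <
      (((S ×ˢ S).filter (fun r => T.Adj (φ r.1.1) (φ r.2.1))).card : ℝ)
    · have h3 := PP5_one hVS3 H T MM φ hA h2 hP1 S hS h.1 h.2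
      refine le_trans (Nat.mul_le_mul_right _ (Finset.card_le_card ?_)) h3
      intro v hv
      obtain ⟨hv1, hv2⟩ := Finset.mem_filter.mp hv
      exact Finset.mem_filter.mpr ⟨hv1, hv2.2⟩
    · have : (Om A H.TT).filter (bad S) = ∅ := by
        rw [Finset.filter_eq_empty_iff]
        intro v _ hb
        exact h hb.1
      rw [this]; simp)
  refine le_trans (Nat.mul_le_mul_right _ (Finset.card_le_card ?_)) key
  intro v hv
  obtain ⟨hv1, hv2⟩ := Finset.mem_filter.mp hv
  refine Finset.mem_filter.mpr ⟨hv1, ?_⟩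
  unfold P5 at hv2
  push Not at hv2
  obtain ⟨S, hS, hF, hlt⟩ := hv2
  refine ⟨S, ?_, ⟨hS, hlt⟩, hF⟩
  by_contra hemp
  rw [Finset.not_nonempty_iff_eq_empty] at hemp
  subst hemp
  simp at hlt

end Pool.Agent.helper24.TG
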