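import Pool.Agent.helper43.TG.Spec

set_option autoImplicit false

namespace Pool.Agent.helper43.TG

theorem SPA_num (n t : ℕ) (Δ : ℝ) (ht : 9 ≤ t) (hΔ : 0 < Δ)
    (h : (600 * (n : ℝ) / ((t : ℝ) + 1) ^ 2 + 48) * Real.log ((t : ℝ) + 1) ≤ Real.log Δ) :
    1 ≤ Δ ∧ ((t : ℝ) + 1) ^ (300 * (n : ℝ) / ((t : ℝ) + 1) ^ 2 + 23) + (t : ℝ) ^ 2 ≤
      Δ ^ (1 / 2 : ℝ) := by
  have ht9 : (9 : ℝ) ≤ t := by exact_mod_cast ht
  have ht1 : (1 : ℝ) < (t : ℝ) + 1 := by linarith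
  have ht0 : (0 : ℝ) < (t : ℝ) + 1 := by linarith
  have hlog : 0 < Real.log ((t : ℝ) + 1) := Real.log_pos ht1
  have hq : 0 ≤ 300 * (n : ℝ) / ((t : ℝ) + 1) ^ 2 := by positivity
  have hq2 : 600 * (n : ℝ) / ((t : ℝ) + 1) ^ 2 = 2 * (300 * (n : ℝ) / ((t : ℝ) + 1) ^ 2) := by ring
  rw [hq2] at h
  set q : ℝ := 300 * (n : ℝ) / ((t : ℝ) + 1) ^ 2 with hqdef
  have hΔlog : 0 < Real.log Δ := by
    have : 0 < (2 * q + 48) * Real.log ((t : ℝ) + 1) := by positivity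
    linarith
  refine ⟨?_, ?_⟩
  · by_contra hlt
    have := Real.log_nonpos hΔ.le (not_le.mp hlt).le
    linarith
  · have h1 : (t : ℝ) ^ 2 ≤ ((t : ℝ) + 1) ^ (q + 23) := by
      calc (t : ℝ) ^ 2 ≤ ((t : ℝ) + 1) ^ 2 := by
            apply pow_le_pow_left₀ (by linarith)
            linarith
        _ = ((t : ℝ) + 1) ^ (2 : ℝ) := by
            rw [← Real.rpow_natCast]
            norm_num
        _ ≤ ((t : ℝ) + 1) ^ (q + 23) := by
            apply Real.rpow_le_rpow_of_exponent_le ht1.le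
            linarith
    have h2 : ((t : ℝ) + 1) ^ (q + 23) * ((t : ℝ) + 1) = ((t : ℝ) + 1) ^ (q + 24) := by
      have h3 : q + 24 = (q + 23) + 1 := by ring
      rw [h3, Real.rpow_add ht0 (q + 23) 1, Real.rpow_one]
    have h4 : ((t : ℝ) + 1) ^ (q + 24) ≤ Δ ^ (1 / 2 : ℝ) := by
      rw [Real.rpow_def_of_pos ht0, Real.rpow_def_of_pos hΔ]
      apply Real.exp_le_exp.mpr
      nlinarith
    have h5 : 0 < ((t : ℝ) + 1) ^ (q + 23) := Real.rpow_pos_of_pos ht0 _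
    nlinarith

theorem t_spa (hc : CNT) (hk : KTB) : SPA := by
  intro n t Δ Y hn ht hΔ hlog hY hYΔ
  have : DecidableEq (E n) := Classical.decEq _
  obtain ⟨hΔ1, hK⟩ := SPA_num n t Δ ht hΔ hlog
  have ht9 : (9 : ℝ) ≤ t := by exact_mod_cast ht
  have ht0 : (0 : ℝ) < (t : ℝ) + 1 := by linarith
  have h1 := hc (E n) Y (fun x y => dist x y = 2) t
    (((t : ℝ) + 1) ^ (300 * (n : ℝ) / ((t : ℝ) + 1) ^ 2 + 23)) (by omega)
    (Real.rpow_pos_of_pos ht0 _).le (by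
      intro X hX hXY
      apply hk n t X _ hn ht
      · intro i j hij
        exact hY _ (hXY i) _ (hXY j) (fun h => hij (hX h))
      · intro y hy i
        exact (Finset.mem_filter.mp hy).2 i
      · intro y hy y' hy' hyy
        exact hY y (Finset.mem_filter.mp hy).1 y' (Finset.mem_filter.mp hy').1 hyy)
  have h2 : (Y.card : ℝ) ^ (2 * t - 1) ≤ Δ ^ (2 * t - 1) :=
    pow_le_pow_left₀ (Nat.cast_nonneg _) hYΔ _
  have h3 : (Y.card : ℝ) ^ (2 * t - 1) *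
      ((((t : ℝ) + 1) ^ (300 * (n : ℝ) / ((t : ℝ) + 1) ^ 2 + 23)) + (t : ℝ) ^ 2) ≤
      Δ ^ (2 * t - 1) * Δ ^ (1 / 2 : ℝ) := by
    apply mul_le_mul h2 hK
    · have := Real.rpow_pos_of_pos ht0 (300 * (n : ℝ) / ((t : ℝ) + 1) ^ 2 + 23)
      positivity
    · positivity
  have h4 : Δ ^ (2 * t - 1) * Δ ^ (1 / 2 : ℝ) = (Δ ^ (2 - 1 / (2 * (t : ℝ)))) ^ t := by
    rw [← Real.rpow_natCast Δ, ← Real.rpow_add hΔ, ← Real.rpow_natCast (Δ ^ (2 - 1 / (2 * (t : ℝ)))),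
      ← Real.rpow_mul hΔ.le]
    congr 1
    have h5 : ((2 * t - 1 : ℕ) : ℝ) = 2 * t - 1 := by
      rw [Nat.cast_sub (by omega)]
      push_cast
      ring
    rw [h5]
    field_simp
    ring
  have h6 := h1.trans (h3.trans_eq h4)
  have h7 : (0 : ℝ) ≤ Δ ^ (2 - 1 / (2 * (t : ℝ))) := Real.rpow_nonneg hΔ.le _
  exact le_of_pow_le_pow_left₀ (by omega) h7 h6

end Pool.Agent.helper43.TG
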