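import Pool.Agent.helper24.TG.S1

set_option linter.all false
set_option autoImplicit false

/-!
# CT1 (MP_ce98d8_co): bipartite containers
-/

namespace Pool.Agent.helper24.TG

open Finset Classical

theorem CT1_aux (X : Type) [Fintype X] [DecidableEq X] (rel : X → X → Prop) (W0 D : ℕ)
    (hW0 : 1 ≤ W0) (hD : 1 ≤ D)
    (h : ∀ S W : Finset X, W0 ≤ S.card → W0 ≤ W.card →
      S.card * W.card ≤ D * ((S ×ˢ W).filter (fun e => rel e.1 e.2)).card) :
    ∀ (n : ℕ) (W1 W2 : Finset X) (k : ℕ), W1.card = n → W2.card * (D - 1) ^ k < W0 * D ^ k →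
      ∃ F : Finset (Finset X), F.card ≤ 2 * (n + 1) ^ k ∧ (∀ W ∈ F, W.card ≤ W0 + k) ∧
        ∀ S R : Finset X, S ⊆ W1 → R ⊆ W2 → (∀ x ∈ S, ∀ y ∈ R, ¬ rel x y) →
          ∃ W ∈ F, S ⊆ W ∨ R ⊆ W := by
  intro n
  induction n with
  | zero =>
    intro W1 W2 k h1 h2
    refine ⟨{W1}, by simp, ?_, ?_⟩
    · intro W hW
      rw [Finset.mem_singleton.mp hW, h1]; omega
    · intro S R hS hR _
      exact ⟨W1, Finset.mem_singleton_self _, Or.inl hS⟩
  | succ n ih =>
    intro W1 W2 k h1 h2
    have hone : 1 ≤ 2 * (n + 1 + 1) ^ k := Nat.mul_pos (by norm_num) (by positivity)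
    by_cases hc1 : W1.card < W0
    · refine ⟨{W1}, by simpa using hone, ?_, ?_⟩
      · intro W hW
        rw [Finset.mem_singleton.mp hW]; omega
      · intro S R hS hR _
        exact ⟨W1, Finset.mem_singleton_self _, Or.inl hS⟩
    by_cases hc2 : W2.card < W0
    · refine ⟨{W2}, by simpa using hone, ?_, ?_⟩
      · intro W hW
        rw [Finset.mem_singleton.mp hW]; omega
      · intro S R hS hR _
        exact ⟨W2, Finset.mem_singleton_self _, Or.inr hR⟩
    push Not at hc1 hc2
    -- the degree of a point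
    have hex : ∃ x ∈ W1, W2.card ≤ D * (W2.filter (fun y => rel x y)).card := by
      by_contra hcon
      push Not at hcon
      have h3 := h W1 W2 hc1 hc2
      have h4 : ((W1 ×ˢ W2).filter (fun e => rel e.1 e.2)).card =
          ∑ x ∈ W1, (W2.filter (fun y => rel x y)).card := by
        simp only [Finset.card_filter]
        rw [Finset.sum_product]
      rw [h4, Finset.mul_sum] at h3
      have h5 : ∑ x ∈ W1, D * (W2.filter (fun y => rel x y)).card < ∑ x ∈ W1, W2.card := by
        refine Finset.sum_lt_sum_of_nonempty (Finset.card_pos.mp (by omega)) hcon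
      rw [Finset.sum_const, smul_eq_mul] at h5
      omega
    obtain ⟨x, hx, hdeg⟩ := hex
    obtain ⟨k, rfl⟩ : ∃ k', k = k' + 1 := by
      cases k with
      | zero => simp at h2; omega
      | succ k => exact ⟨k, rfl⟩
    set W2' := W2.filter (fun y => ¬ rel x y) with hW2'
    have hsum : (W2.filter (fun y => rel x y)).card + W2'.card = W2.card := by
      rw [hW2', Finset.card_filter_add_card_filter_not]
    have hn : (W1.erase x).card = n := by rw [Finset.card_erase_of_mem hx, h1]; rfl
    have h3 : W2'.card * (D - 1) ^ k < W0 * D ^ k := by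
      have h4 : D * W2'.card ≤ (D - 1) * W2.card := by
        have e1 : D * W2.card = D * (W2.filter (fun y => rel x y)).card + D * W2'.card := by
          rw [← hsum]; ring
        have e2 : (D - 1) * W2.card + W2.card = D * W2.card := by
          conv_rhs => rw [show D = (D - 1) + 1 by omega]
          ring
        omega
      have h5 : D * (W2'.card * (D - 1) ^ k) < D * (W0 * D ^ k) := by
        calc D * (W2'.card * (D - 1) ^ k) = (D * W2'.card) * (D - 1) ^ k := by ring
          _ ≤ ((D - 1) * W2.card) * (D - 1) ^ k := Nat.mul_le_mul_right _ h4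
          _ = W2.card * (D - 1) ^ (k + 1) := by ring
          _ < W0 * D ^ (k + 1) := h2
          _ = D * (W0 * D ^ k) := by ring
      exact Nat.lt_of_mul_lt_mul_left h5
    obtain ⟨F1, hF1a, hF1b, hF1c⟩ := ih (W1.erase x) W2 (k + 1) hn h2
    obtain ⟨F2, hF2a, hF2b, hF2c⟩ := ih (W1.erase x) W2' k hn h3
    refine ⟨F1 ∪ F2.image (fun W => insert x W), ?_, ?_, ?_⟩
    · have h4 : (F1 ∪ F2.image (fun W => insert x W)).card ≤
          2 * (n + 1) ^ (k + 1) + 2 * (n + 1) ^ k :=
        (Finset.card_union_le _ _).trans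
          (Nat.add_le_add hF1a (Finset.card_image_le.trans hF2a))
      refine h4.trans ?_
      have h5 : (n + 1) ^ k ≤ (n + 1 + 1) ^ k := Nat.pow_le_pow_left (by omega) k
      calc 2 * (n + 1) ^ (k + 1) + 2 * (n + 1) ^ k = 2 * ((n + 1 + 1) * (n + 1) ^ k) := by ring
        _ ≤ 2 * ((n + 1 + 1) * (n + 1 + 1) ^ k) := by gcongr
        _ = _ := by ring
    · intro W hW
      rcases Finset.mem_union.mp hW with hW | hW
      · exact hF1b W hW
      · obtain ⟨W', hW', rfl⟩ := Finset.mem_image.mp hW
        have := hF2b W' hW'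
        exact (Finset.card_insert_le _ _).trans (by omega)
    · intro S R hS hR hind
      by_cases hxS : x ∈ S
      · have hR' : R ⊆ W2' := by
          intro y hy
          rw [hW2', Finset.mem_filter]
          exact ⟨hR hy, hind x hxS y hy⟩
        have hS' : S.erase x ⊆ W1.erase x := Finset.erase_subset_erase x hS
        obtain ⟨W, hW, hor⟩ := hF2c (S.erase x) R hS' hR'
          (fun a ha b hb => hind a (Finset.mem_of_mem_erase ha) b hb)
        refine ⟨insert x W, Finset.mem_union_right _ (Finset.mem_image_of_mem _ hW), ?_⟩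
        rcases hor with h' | h'
        · left
          intro a ha
          by_cases hax : a = x
          · rw [hax]; exact Finset.mem_insert_self _ _
          · exact Finset.mem_insert_of_mem (h' (Finset.mem_erase.mpr ⟨hax, ha⟩))
        · right; exact h'.trans (Finset.subset_insert _ _)
      · have hS' : S ⊆ W1.erase x := by
          intro a ha
          exact Finset.mem_erase.mpr ⟨fun h => hxS (h ▸ ha), hS ha⟩
        obtain ⟨W, hW, hor⟩ := hF1c S R hS' hR hind
        exact ⟨W, Finset.mem_union_left _ hW, hor⟩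

theorem CT1 : CT1_stmt := by
  intro X _ _ rel W0 D k hW0 hD h hk
  obtain ⟨F, h1, h2, h3⟩ := CT1_aux X rel W0 D hW0 hD h (Fintype.card X) Finset.univ Finset.univ k
    (by simp) (by simpa using hk)
  exact ⟨F, h1, h2, fun S R hind => h3 S R (Finset.subset_univ _) (Finset.subset_univ _) hind⟩

end Pool.Agent.helper24.TG
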